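import Pool.Agent.Work.MP_9999b5_mz.Interface

/-!
MP_9999b5_co, block AVG of `mmz_blocks`: averaging.
-/

set_option autoImplicit false

namespace Pool.Agent.Work.MP_9999b5_mz

open Finset

theorem AVG_count {ι : Type} [DecidableEq ι] (A : Finset ι) (k n : ℕ) (hA : A.card = n + k)
    (G N : Finset (Finset ι)) (hG : G ⊆ A.powersetCard k) (hN : N ⊆ A.powersetCard k) :
    ∑ B ∈ G, (N.filter (fun B' => Disjoint B B')).card ≤ N.card * n.choose k := by
  rw [show (∑ B ∈ G, (N.filter (fun B' => Disjoint B B')).card) =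
      ∑ B' ∈ N, (G.filter (fun B => Disjoint B B')).card from
    Finset.sum_card_bipartiteAbove_eq_sum_card_bipartiteBelow (fun B B' => Disjoint B B')]
  rw [← smul_eq_mul, ← Finset.sum_const]
  apply Finset.sum_le_sum
  intro B' hB'
  have h1 := Finset.mem_powersetCard.1 (hN hB')
  have h2 : (A \ B').card = n := by
    rw [Finset.card_sdiff_of_subset h1.1, hA, h1.2]; omega
  rw [← h2, ← Finset.card_powersetCard k (A \ B')]
  apply Finset.card_le_card
  intro B hB
  rw [Finset.mem_filter] at hB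
  have h3 := Finset.mem_powersetCard.1 (hG hB.1)
  rw [Finset.mem_powersetCard]
  exact ⟨Finset.subset_sdiff.2 ⟨h3.1, hB.2⟩, h3.2⟩

theorem p_AVG : Stmt_AVG := by
  intro k n φ hkn hφ hW ι _ A x hA hx
  set N := (A.powersetCard k).filter (fun B => 0 ≤ ∑ i ∈ B, x i) with hN
  set G := (A.powersetCard k).filter (fun B => ¬ 0 ≤ ∑ i ∈ B, x i) with hG
  have hc : N.card + G.card = (n + k).choose k := by
    rw [hN, hG, Finset.card_filter_add_card_filter_not, Finset.card_powersetCard, hA]
  have h1 : ∀ B ∈ G, φ * (n.choose k : ℝ) ≤ ((N.filter (fun B' => Disjoint B B')).card : ℝ) := by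
    intro B hB
    rw [hG, Finset.mem_filter] at hB
    have h3 := Finset.mem_powersetCard.1 hB.1
    have h4 : (A \ B).card = n := by
      rw [Finset.card_sdiff_of_subset h3.1, hA, h3.2]; omega
    have h5 : 0 ≤ ∑ i ∈ A \ B, x i := by
      have h6 := Finset.sum_sdiff (f := x) h3.1
      have h7 := not_le.1 hB.2
      linarith
    refine le_trans (hW ι (A \ B) x h4 h5) ?_
    apply Nat.cast_le.2
    apply Finset.card_le_card
    intro B' hB'
    rw [Finset.mem_filter] at hB'
    have h8 := Finset.mem_powersetCard.1 hB'.1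
    have h9 := Finset.subset_sdiff.1 h8.1
    rw [Finset.mem_filter, hN, Finset.mem_filter, Finset.mem_powersetCard]
    exact ⟨⟨⟨h9.1, h8.2⟩, hB'.2⟩, h9.2.symm⟩
  have h2 : φ * (n.choose k : ℝ) * (G.card : ℝ) ≤ (N.card : ℝ) * (n.choose k : ℝ) := by
    have h3 := Finset.sum_le_sum h1
    rw [Finset.sum_const, nsmul_eq_mul] at h3
    have h4 := AVG_count A k n hA G N (Finset.filter_subset _ _) (Finset.filter_subset _ _)
    have h5 : (∑ B ∈ G, ((N.filter (fun B' => Disjoint B B')).card : ℝ)) ≤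
        (N.card : ℝ) * (n.choose k : ℝ) := by
      exact_mod_cast h4
    linarith
  have hpos : (0 : ℝ) < (n.choose k : ℝ) := by
    exact_mod_cast Nat.choose_pos hkn
  have h3 : φ * (G.card : ℝ) ≤ (N.card : ℝ) := by
    have h4 : (φ * (G.card : ℝ)) * (n.choose k : ℝ) ≤ (N.card : ℝ) * (n.choose k : ℝ) := by
      linarith
    exact le_of_mul_le_mul_right h4 hpos
  have hc' : (N.card : ℝ) + (G.card : ℝ) = ((n + k).choose k : ℝ) := by exact_mod_cast hc
  rw [← hc', div_mul_eq_mul_div, div_le_iff₀ (by linarith)]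
  nlinarith

end Pool.Agent.Work.MP_9999b5_mz
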