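import Pool.Agent.Work.MP_9999b5_mz.Interface
import Pool.Agent.Work.MP_9999b5_ch_h15.Chain

set_option autoImplicit false

namespace Pool.Agent.Work.MP_9999b5_mz

open Finset

theorem CHN_sum {ι : Type} [DecidableEq ι] (V : Finset ι) (x : ι → ℝ) (k : ℕ)
    (p : Finset ι × Finset ι) (hp : p ∈ MP_9999b5_mr.prs V k) :
    ∑ i ∈ p.1 ∪ p.2, x i = ∑ i ∈ p.1, x i + ∑ i ∈ p.2, x i := by
  rw [MP_9999b5_ch.mem_prs] at hp
  exact sum_union hp.2.2

theorem CHN_bad {ι : Type} [DecidableEq ι] (C : Finset ι) (x : ι → ℝ) (k : ℕ) :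
    MP_9999b5_ch.nnC (fun B => ∑ i ∈ B, x i ≤ 0) C k = MP_9999b5_mr.bad C x k := by
  unfold MP_9999b5_ch.nnC MP_9999b5_mr.bad
  rfl

theorem CHN_hvy {ι : Type} [DecidableEq ι] (C : Finset ι) (x : ι → ℝ) (k : ℕ) :
    MP_9999b5_ch.hhC (fun B => ∑ i ∈ B, x i ≤ 0) C k = MP_9999b5_mr.hvy C x k := by
  unfold MP_9999b5_ch.hhC MP_9999b5_mr.hvy
  congr 1
  apply filter_congr
  intro p hp
  show ∑ i ∈ p.1 ∪ p.2, x i ≤ 0 ↔ _
  rw [CHN_sum C x k p hp]

/-- the chain for one set `V` with the local inequalities for its subsets -/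
theorem CHN_one {ι : Type} [DecidableEq ι] (V : Finset ι) (x : ι → ℝ) (k T : ℕ) (L : ℝ)
    (hk : 1 ≤ k) (hV : V.card = 4 * k + T)
    (hloc : ∀ U ∈ V.powersetCard (2 * k), ∑ i ∈ U, x i ≤ 0 →
      qd k T L (V \ U) x ≤ 0 ∧ 0 ≤ hm k T L (V \ U) x) :
    (k : ℝ) / (4 * k + T) * ((4 * k + T).choose k : ℝ) ≤
      Pool.Agent.Work.MaxSums.pos x V k := by
  have hm0 : (0 : ℝ) < 2 * k + T := by
    have : (1 : ℝ) ≤ k := by exact_mod_cast hk
    have : (0 : ℝ) ≤ T := Nat.cast_nonneg T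
    linarith
  have h := MP_9999b5_ch.chain V k T hk hV (fun B => ∑ i ∈ B, x i ≤ 0)
    (fun B => ∑ i ∈ B, x i ≤ 0) L ?_ ?_ ?_ ?_
  · refine h.trans (le_of_eq ?_)
    unfold Pool.Agent.Work.MaxSums.pos
    norm_cast
    congr 1
    apply filter_congr
    intro B _
    exact not_le
  · intro p hp h1 h2
    show ∑ i ∈ p.1 ∪ p.2, x i ≤ 0
    rw [CHN_sum V x k p hp]
    linarith
  · intro p hp h1 h2
    show ¬ ∑ i ∈ p.1 ∪ p.2, x i ≤ 0
    rw [CHN_sum V x k p hp]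
    simp only [not_le] at h1 h2 ⊢
    linarith
  · intro U hU hx
    have h1 := (hloc U hU hx).1
    rw [CHN_bad, CHN_hvy]
    unfold qd tau at h1
    have h2 := mul_le_mul_of_nonneg_left h1 hm0.le
    have e : (2 * (k : ℝ) + T) * ((MP_9999b5_mr.bad (V \ U) x k : ℝ) -
        (T : ℝ) / (2 * k + T) * ((MP_9999b5_mr.prs (V \ U) k).card : ℝ) -
        L * ((MP_9999b5_mr.hvy (V \ U) x k : ℝ) - (MP_9999b5_mr.bad (V \ U) x k : ℝ))) =
        (2 * (k : ℝ) + T) * (MP_9999b5_mr.bad (V \ U) x k : ℝ) -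
        T * ((MP_9999b5_mr.prs (V \ U) k).card : ℝ) -
        L * (2 * (k : ℝ) + T) * ((MP_9999b5_mr.hvy (V \ U) x k : ℝ) -
          (MP_9999b5_mr.bad (V \ U) x k : ℝ)) := by
      field_simp
    rw [e] at h2
    linarith
  · intro W hW hx
    have h1 := (hloc W hW hx).2
    rw [CHN_bad, CHN_hvy]
    unfold hm theta tau at h1
    have e : (3 / 2 - (T : ℝ) / (4 * (2 * k + T))) = 3 / 2 - (T : ℝ) / (2 * k + T) / 4 := by
      field_simp
    rw [e]
    linarith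

theorem p_CHN : Stmt_PSW → Stmt_CHN := by
  intro hP k T L hk hloc
  have h := hP k (4 * k + T) ((k : ℝ) / (4 * k + T)) (by omega)
  apply h
  intro ι _ A x hA hx
  apply CHN_one A x k T L hk hA
  intro U hU hUx
  have hU' := mem_powersetCard.1 hU
  apply hloc
  · rw [card_sdiff_of_subset hU'.1, hA, hU'.2]
    omega
  · have := sum_sdiff (f := x) hU'.1
    linarith

end Pool.Agent.Work.MP_9999b5_mz
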