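import Pool.Agent.Work.MP_9999b5_mz.Interface

/-!
MP_9999b5_co, block DVN of `mmz_blocks`: the cases `n = 2k, 3k, 4k`.
-/

set_option autoImplicit false

namespace Pool.Agent.Work.MP_9999b5_mz

open Finset

theorem DVN_one (k : ℕ) : MP_9999b5_sp.WP k k 1 := by
  intro ι _ A x hA hx
  have h : A ∈ (A.powersetCard k).filter (fun B => 0 ≤ ∑ i ∈ B, x i) := by
    rw [Finset.mem_filter, Finset.mem_powersetCard]
    exact ⟨⟨Finset.Subset.refl _, hA⟩, hx⟩
  have h1 : 1 ≤ ((A.powersetCard k).filter (fun B => 0 ≤ ∑ i ∈ B, x i)).card :=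
    Finset.card_pos.2 ⟨A, h⟩
  rw [Nat.choose_self, Nat.cast_one, one_mul]
  exact_mod_cast h1

theorem p_DVN : Stmt_AVG → Stmt_DVN := by
  intro hAVG k
  have h2 := hAVG k k 1 le_rfl (by norm_num) (DVN_one k)
  rw [show (1 : ℝ) / (1 + 1) = 1 / 2 by norm_num, show k + k = 2 * k by ring] at h2
  have h3 := hAVG k (2 * k) (1 / 2) (by omega) (by norm_num) h2
  rw [show (1 / 2 : ℝ) / (1 + 1 / 2) = 1 / 3 by norm_num, show 2 * k + k = 3 * k by ring] at h3
  have h4 := hAVG k (3 * k) (1 / 3) (by omega) (by norm_num) h3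
  rw [show (1 / 3 : ℝ) / (1 + 1 / 3) = 1 / 4 by norm_num, show 3 * k + k = 4 * k by ring] at h4
  exact ⟨h2, h3, h4⟩

end Pool.Agent.Work.MP_9999b5_mz
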