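import Pool.Agent.Work.MP_9999b5_mz.Interface
import Pool.Agent.Work.MP_9999b5_ms_helper84.Transfer4

/-!
Block FIN of `mmz_blocks` (MP_9999b5_co): the final theorem (typed by helper43).
-/

set_option autoImplicit false

namespace Pool.Agent.Work.MP_9999b5_mz

open Finset

/-- `k / n * C(n, k) = C(n - 1, k - 1)` -/
theorem FIN_choose (k n : ℕ) (hk : 1 ≤ k) (hn : 1 ≤ n) :
    (k : ℝ) / (n : ℝ) * (n.choose k : ℝ) = ((n - 1).choose (k - 1) : ℝ) := by
  obtain ⟨l, rfl⟩ : ∃ l, k = l + 1 := ⟨k - 1, by omega⟩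
  obtain ⟨M, rfl⟩ : ∃ M, n = M + 1 := ⟨n - 1, by omega⟩
  simp only [Nat.add_sub_cancel]
  have h3 := Nat.add_one_mul_choose_eq M l
  have h4 : (((M + 1 : ℕ) : ℝ)) * (M.choose l : ℝ)
      = ((M + 1).choose (l + 1) : ℝ) * ((l + 1 : ℕ) : ℝ) := by exact_mod_cast h3
  have h5 : (0 : ℝ) < ((M + 1 : ℕ) : ℝ) := by positivity
  rw [div_mul_eq_mul_div, div_eq_iff h5.ne', mul_comm ((l + 1 : ℕ) : ℝ), ← h4, mul_comm]

theorem FIN_all (hS : Stmt_STP) : ∀ k : ℕ, 1 ≤ k → IH k := by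
  intro k
  induction k using Nat.strong_induction_on with
  | _ k ih =>
    intro hk
    exact hS k hk (fun T hT hTk => ih T hTk hT)

theorem FIN_MMS (hS : Stmt_STP) (k n : ℕ) (hk : 0 < k) (hn : 4 * k ≤ n) :
    Pool.Agent.Work.MaxSums.MMS k n := by
  intro x hx
  have h := (FIN_all hS k hk).2 n hn (Fin n) Finset.univ x (by simp) hx
  rw [FIN_choose k n hk (by omega)] at h
  exact_mod_cast h

theorem p_FIN : Stmt_STP → Stmt_FIN := by
  intro hS k n hk hn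
  refine ⟨FIN_MMS hS k n hk hn, fun h5 => ?_⟩
  obtain ⟨m, rfl⟩ : ∃ m, n = m + k := ⟨n - k, by omega⟩
  exact Pool.Agent.Work.MaxSums.Transfer.greatest_of_MMS hk (by omega)
    (FIN_MMS hS k m hk (by omega))

end Pool.Agent.Work.MP_9999b5_mz
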