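import Pool.Agent.Work.MP_9999b5_mz.Interface

/-! Block FKT (helper16). -/

set_option autoImplicit false

namespace Pool.Agent.Work.MP_9999b5_mz

open Finset

theorem p_FKT : Stmt_AVG → Stmt_DVN → Stmt_FKT := by
  intro hAVG hDVN k T hT1 hTk hIH
  have hT0 : (0 : ℝ) < T := by exact_mod_cast hT1
  have hk0 : (0 : ℝ) < k := by exact_mod_cast (by omega : 0 < k)
  by_cases h3 : 3 * T ≤ k
  · have hW := hIH.2 (k + T) (by omega)
    rw [Nat.cast_add] at hW
    refine ⟨(T : ℝ) / (k + T), ?_, Or.inl ⟨h3, le_refl _⟩, fun _ => le_refl _, hW⟩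
    rw [div_le_one (by positivity)]
    linarith
  by_cases h2 : 2 * T < k
  · obtain ⟨v, hv⟩ : ∃ v, k = 2 * T + v := ⟨k - 2 * T, by omega⟩
    have hv1 : 1 ≤ v := by omega
    have hvT : v < T := by omega
    have hW := hIH.1 v hv1 hvT
    have hkT : 2 * T + v + T = k + T := by omega
    by_cases h3v : 3 * v ≤ T
    · rw [if_pos h3v] at hW
      have hA := hAVG T (2 * T + v) (1 / 4) (by omega) (by norm_num) hW
      rw [hkT] at hA
      refine ⟨_, ?_, Or.inr (Or.inr (Or.inl ⟨by omega, by omega, ?_⟩)), fun h => absurd h h3, hA⟩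
      · norm_num
      · norm_num
    · rw [if_neg h3v] at hW
      have hA := hAVG T (2 * T + v) (9 / 40) (by omega) (by norm_num) hW
      rw [hkT] at hA
      refine ⟨_, ?_, Or.inr (Or.inl ⟨by omega, by omega, ?_⟩), fun h => absurd h h3, hA⟩
      · norm_num
      · norm_num
  by_cases he : k = 2 * T
  · have hW := (hDVN T).2.1
    have hkT : 3 * T = k + T := by omega
    rw [hkT] at hW
    refine ⟨1 / 3, by norm_num, Or.inr (Or.inr (Or.inl ⟨by omega, by omega, by norm_num⟩)),
      fun h => absurd h h3, hW⟩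
  · obtain ⟨v, hv⟩ : ∃ v, k = T + v := ⟨k - T, by omega⟩
    have hv1 : 1 ≤ v := by omega
    have hvT : v < T := by omega
    have hW := hIH.1 v hv1 hvT
    have hkT : 2 * T + v = k + T := by omega
    rw [hkT] at hW
    by_cases h3v : 3 * v ≤ T
    · rw [if_pos h3v] at hW
      refine ⟨1 / 4, by norm_num, Or.inr (Or.inr (Or.inr (Or.inr ⟨by omega, by omega, le_refl _⟩))),
        fun h => absurd h h3, hW⟩
    · rw [if_neg h3v] at hW
      refine ⟨9 / 40, by norm_num, Or.inr (Or.inr (Or.inr (Or.inl ⟨by omega, by omega, le_refl _⟩))),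
        fun h => absurd h h3, hW⟩

end Pool.Agent.Work.MP_9999b5_mz
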