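import Pool.Agent.Work.MP_9999b5_mz.Interface

set_option autoImplicit false

namespace Pool.Agent.Work.MP_9999b5_mz

open Finset

theorem p_LOC : MP_9999b5_mr.Stmt_PAC → MP_9999b5_sp.Stmt_NR2 → Stmt_RFC → Stmt_LOC := by
  intro hPAC hNR2 hRFC k T φ Q L hk hT hWP hS ι _ C x hC hpos
  obtain ⟨w, q, r, hq0, hqw, hw1, hr0, hrw, hbad, hhvy, hpp, hin⟩ := hNR2 ι C x k T hk hC
  have hR := hRFC k T φ hk hT hWP ι C x hC hpos
  have hNpos : (0 : ℝ) < ((MP_9999b5_mr.prs C k).card : ℝ) := by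
    have h := (hPAC ι C x k).1
    rw [hC] at h
    rw [h]
    have h1 : 0 < (2 * k).choose k := Nat.choose_pos (by omega)
    have h2 : 0 < (2 * k + T).choose (2 * k) := Nat.choose_pos (by omega)
    exact_mod_cast Nat.mul_pos h1 h2
  set N : ℝ := ((MP_9999b5_mr.prs C k).card : ℝ) with hN
  have hdiv : 2 * T * q + k * r + k * w ≤ k + (T - φ * (k + T)) * (1 + q - r) := by
    have h3 : (2 * (T : ℝ) * q + k * r + k * w) * N ≤
        (k + (T - φ * (k + T)) * (1 + q - r)) * N := by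
      have e1 : (2 * (T : ℝ) * q + k * r + k * w) * N =
          2 * T * (MP_9999b5_mr.bad C x k : ℝ) + k * (MP_9999b5_sp.pp C x k : ℝ) +
            k * (MP_9999b5_mr.hvy C x k : ℝ) := by
        rw [hbad, hhvy, hpp]; ring
      have e2 : (k + (T - φ * (k + T)) * (1 + q - r)) * N =
          k * N + (T - φ * (k + T)) * (N + (MP_9999b5_mr.bad C x k : ℝ) -
            (MP_9999b5_sp.pp C x k : ℝ)) := by
        rw [hbad, hpp]; ring
      rw [e1, e2]
      exact hR
    exact le_of_mul_le_mul_right h3 hNpos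
  obtain ⟨g1, g2, g3⟩ := hS w q r hq0 hqw hw1 hr0 hrw hin hdiv
  refine ⟨?_, ?_, ?_⟩
  · rw [hbad]
    exact mul_le_mul_of_nonneg_right g1 hNpos.le
  · unfold qd
    rw [hbad, hhvy, ← hN]
    have h4 := mul_le_mul_of_nonneg_right g2 hNpos.le
    nlinarith [h4]
  · unfold hm
    rw [hbad, hhvy, ← hN]
    have h4 := mul_le_mul_of_nonneg_right g3 hNpos.le
    nlinarith [h4]

end Pool.Agent.Work.MP_9999b5_mz
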