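import Pool.Agent.Work.MP_9999b5_mz.Interface

set_option autoImplicit false

namespace Pool.Agent.Work.MP_9999b5_mz

open Finset

theorem PSW_eps {ι : Type} [DecidableEq ι] (A : Finset ι) (x : ι → ℝ) (k : ℕ) :
    ∃ ε : ℝ, 0 < ε ∧ ∀ B ∈ A.powersetCard k, ∑ i ∈ B, x i < 0 → ∑ i ∈ B, x i + k * ε ≤ 0 := by
  rcases ((A.powersetCard k).filter (fun B => ∑ i ∈ B, x i < 0)).eq_empty_or_nonempty with h | h
  · refine ⟨1, one_pos, fun B hB hneg => ?_⟩
    have : B ∈ (A.powersetCard k).filter (fun B => ∑ i ∈ B, x i < 0) := mem_filter.2 ⟨hB, hneg⟩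
    rw [h] at this
    exact absurd this (notMem_empty _)
  · obtain ⟨B0, hB0, hmax⟩ := exists_max_image _ (fun B => ∑ i ∈ B, x i) h
    have h0 : ∑ i ∈ B0, x i < 0 := (mem_filter.1 hB0).2
    have hk : (0 : ℝ) < (k : ℝ) + 1 := by positivity
    refine ⟨(-∑ i ∈ B0, x i) / (k + 1), div_pos (by linarith) hk, fun B hB hneg => ?_⟩
    have h1 : ∑ i ∈ B, x i ≤ ∑ i ∈ B0, x i := hmax B (mem_filter.2 ⟨hB, hneg⟩)
    have h2 : (k : ℝ) * ((-∑ i ∈ B0, x i) / (k + 1)) ≤ -∑ i ∈ B0, x i := by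
      rw [mul_div_assoc', div_le_iff₀ hk]
      nlinarith
    linarith

theorem p_PSW : Stmt_PSW := by
  intro k n φ hn H ι _ A x hA hsum
  obtain ⟨ε, hε, hB⟩ := PSW_eps A x k
  have hpos : 0 < ∑ i ∈ A, (x i + ε) := by
    rw [sum_add_distrib, sum_const, nsmul_eq_mul, hA]
    have : (0 : ℝ) < (n : ℝ) := by exact_mod_cast hn
    have := mul_pos this hε
    linarith
  refine (H ι A (fun i => x i + ε) hA hpos).trans ?_
  unfold Pool.Agent.Work.MaxSums.pos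
  norm_cast
  apply card_le_card
  intro B hB'
  rw [mem_filter] at hB' ⊢
  refine ⟨hB'.1, ?_⟩
  by_contra hc
  rw [not_le] at hc
  have h1 := hB B hB'.1 hc
  have h2 := hB'.2
  rw [sum_add_distrib, sum_const, nsmul_eq_mul, (mem_powersetCard.1 hB'.1).2] at h2
  linarith

end Pool.Agent.Work.MP_9999b5_mz
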