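import Pool.Agent.Work.MP_9999b5_mz.Interface
import Pool.Agent.Work.MP_9999b5_sp.B_EX2

/-!
RFC (MP_9999b5_co, typed by helper53): the flow for a positive total.
-/

set_option autoImplicit false

namespace Pool.Agent.Work.MP_9999b5_mz

open Finset

/-- the pairs with second sum `≤ 0`, first sum `> 0` -/
noncomputable def RFC_G {ι : Type} [DecidableEq ι] (C : Finset ι) (x : ι → ℝ) (k : ℕ) : ℕ :=
  ((MP_9999b5_mr.prs C k).filter (fun p => ∑ i ∈ p.2, x i ≤ 0 ∧ 0 < ∑ i ∈ p.1, x i)).card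

/-- the pairs with second sum `≤ 0` and positive total -/
noncomputable def RFC_N {ι : Type} [DecidableEq ι] (C : Finset ι) (x : ι → ℝ) (k : ℕ) : ℕ :=
  ((MP_9999b5_mr.prs C k).filter (fun p => ∑ i ∈ p.2, x i ≤ 0 ∧
    0 < ∑ i ∈ p.1, x i + ∑ i ∈ p.2, x i)).card

lemma RFC_LG {ι : Type} [DecidableEq ι] (C : Finset ι) (x : ι → ℝ) (k : ℕ) :
    MP_9999b5_sp.EX2_L C x k = RFC_G C x k + MP_9999b5_mr.bad C x k := by
  unfold MP_9999b5_sp.EX2_L RFC_G MP_9999b5_mr.bad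
  rw [← card_union_of_disjoint]
  · congr 1
    ext p
    simp only [mem_union, mem_filter]
    constructor
    · rintro ⟨hp, h⟩
      rcases lt_or_ge 0 (∑ i ∈ p.1, x i) with ha | ha
      · exact Or.inl ⟨hp, h, ha⟩
      · exact Or.inr ⟨hp, ha, h⟩
    · rintro (⟨hp, h, _⟩ | ⟨hp, _, h⟩)
      · exact ⟨hp, h⟩
      · exact ⟨hp, h⟩
  · rw [disjoint_filter]
    rintro p _ ⟨_, h⟩ ⟨h', _⟩
    linarith

lemma RFC_NE {ι : Type} [DecidableEq ι] (C : Finset ι) (x : ι → ℝ) (k : ℕ) :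
    RFC_N C x k ≤ (MP_9999b5_sp.EXG_N C x k).card := by
  unfold RFC_N MP_9999b5_sp.EXG_N
  apply card_le_card
  intro p hp
  obtain ⟨h1, h2, h3⟩ := mem_filter.1 hp
  exact mem_filter.2 ⟨h1, by linarith, h2, h3⟩

lemma RFC_main {ι : Type} [DecidableEq ι] (hS : Stmt_SHP) (k T : ℕ) (φ : ℝ) (hk : 1 ≤ k)
    (hT : 1 ≤ T) (hW : MP_9999b5_sp.WP T (k + T) φ) (C : Finset ι) (x : ι → ℝ)
    (hC : C.card = 2 * k + T) (hc : 0 < ∑ i ∈ C, x i) :
    φ * (k + T) * (MP_9999b5_sp.EX2_L C x k : ℝ) ≤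
      k * (RFC_N C x k : ℝ) + T * (RFC_G C x k : ℝ) := by
  have hL : (MP_9999b5_sp.EX2_L C x k : ℝ) = ∑ B ∈ C.powersetCard k,
      ((((C \ B).powersetCard k).filter (fun _ => ∑ i ∈ B, x i ≤ 0)).card : ℝ) := by
    unfold MP_9999b5_sp.EX2_L
    rw [MP_9999b5_sp.EX2_fib C k (fun _ B => ∑ i ∈ B, x i ≤ 0), Nat.cast_sum]
  have hN : (RFC_N C x k : ℝ) = ∑ B ∈ C.powersetCard k,
      ((((C \ B).powersetCard k).filter (fun A => ∑ i ∈ B, x i ≤ 0 ∧
        0 < ∑ i ∈ A, x i + ∑ i ∈ B, x i)).card : ℝ) := by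
    unfold RFC_N
    rw [MP_9999b5_sp.EX2_fib C k
      (fun A B => ∑ i ∈ B, x i ≤ 0 ∧ 0 < ∑ i ∈ A, x i + ∑ i ∈ B, x i), Nat.cast_sum]
  have hG : (RFC_G C x k : ℝ) = ∑ B ∈ C.powersetCard k,
      ((((C \ B).powersetCard k).filter (fun A => ∑ i ∈ B, x i ≤ 0 ∧
        0 < ∑ i ∈ A, x i)).card : ℝ) := by
    unfold RFC_G
    rw [MP_9999b5_sp.EX2_fib C k (fun A B => ∑ i ∈ B, x i ≤ 0 ∧ 0 < ∑ i ∈ A, x i),
      Nat.cast_sum]
  rw [hL, hN, hG, Finset.mul_sum, Finset.mul_sum, Finset.mul_sum, ← Finset.sum_add_distrib]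
  refine Finset.sum_le_sum ?_
  intro B hB
  obtain ⟨hB1, hB2⟩ := mem_powersetCard.1 hB
  by_cases hb : ∑ i ∈ B, x i ≤ 0
  · have hA : (C \ B).card = k + T := by
      rw [card_sdiff_of_subset hB1]
      omega
    have sC : ∑ i ∈ C \ B, x i + ∑ i ∈ B, x i = ∑ i ∈ C, x i := sum_sdiff hB1
    have h1 := hS k T φ hk hT hW ι (C \ B) x (∑ i ∈ C, x i) hA hc
    rw [MP_9999b5_sp.EX2_comp (C \ B) k T hA (fun K => ∑ i ∈ K, x i < ∑ i ∈ C, x i),
      MP_9999b5_sp.EX2_comp (C \ B) k T hA (fun K => ∑ i ∈ K, x i < ∑ i ∈ C \ B, x i)] at h1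
    have e1 : (((C \ B).powersetCard k).filter (fun _ => ∑ i ∈ B, x i ≤ 0)).card =
        (k + T).choose T := by
      rw [filter_true_of_mem (fun _ _ => hb), card_powersetCard, hA]
      rw [Nat.choose_symm_add]
    have e2 : ((C \ B).powersetCard k).filter (fun A => ∑ i ∈ B, x i ≤ 0 ∧
        0 < ∑ i ∈ A, x i + ∑ i ∈ B, x i) =
        ((C \ B).powersetCard k).filter
          (fun A => ∑ i ∈ (C \ B) \ A, x i < ∑ i ∈ C, x i) := by
      apply filter_congr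
      intro A hA'
      have sD : ∑ i ∈ (C \ B) \ A, x i + ∑ i ∈ A, x i = ∑ i ∈ C \ B, x i :=
        sum_sdiff (mem_powersetCard.1 hA').1
      constructor
      · intro h
        linarith [h.2]
      · intro h
        exact ⟨hb, by linarith⟩
    have e3 : ((C \ B).powersetCard k).filter (fun A => ∑ i ∈ B, x i ≤ 0 ∧
        0 < ∑ i ∈ A, x i) =
        ((C \ B).powersetCard k).filter
          (fun A => ∑ i ∈ (C \ B) \ A, x i < ∑ i ∈ C \ B, x i) := by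
      apply filter_congr
      intro A hA'
      have sD : ∑ i ∈ (C \ B) \ A, x i + ∑ i ∈ A, x i = ∑ i ∈ C \ B, x i :=
        sum_sdiff (mem_powersetCard.1 hA').1
      constructor
      · intro h
        linarith [h.2]
      · intro h
        exact ⟨hb, by linarith⟩
    rw [e1, e2, e3]
    exact h1
  · have e1 : ((C \ B).powersetCard k).filter (fun _ => ∑ i ∈ B, x i ≤ 0) = ∅ :=
      filter_false_of_mem (fun _ _ => hb)
    have e2 : ((C \ B).powersetCard k).filter (fun A => ∑ i ∈ B, x i ≤ 0 ∧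
        0 < ∑ i ∈ A, x i + ∑ i ∈ B, x i) = ∅ :=
      filter_false_of_mem (fun _ _ h => hb h.1)
    have e3 : ((C \ B).powersetCard k).filter (fun A => ∑ i ∈ B, x i ≤ 0 ∧
        0 < ∑ i ∈ A, x i) = ∅ :=
      filter_false_of_mem (fun _ _ h => hb h.1)
    rw [e1, e2, e3, card_empty]
    simp

theorem p_RFC : Stmt_SHP → Stmt_RFC := by
  intro hS k T φ hk hT hW ι _ C x hC hc
  have h1 := RFC_main hS k T φ hk hT hW C x hC hc
  have h2 : (MP_9999b5_sp.EX2_L C x k : ℝ) =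
      (RFC_G C x k : ℝ) + (MP_9999b5_mr.bad C x k : ℝ) := by
    exact_mod_cast RFC_LG C x k
  have h3 : 2 * (MP_9999b5_sp.EX2_L C x k : ℝ) + (MP_9999b5_sp.pp C x k : ℝ) =
      ((MP_9999b5_mr.prs C k).card : ℝ) + (MP_9999b5_mr.bad C x k : ℝ) := by
    exact_mod_cast MP_9999b5_sp.EX2_two C x k
  have h4 : 2 * ((MP_9999b5_sp.EXG_N C x k).card : ℝ) + (MP_9999b5_sp.pp C x k : ℝ) +
      (MP_9999b5_mr.hvy C x k : ℝ) = ((MP_9999b5_mr.prs C k).card : ℝ) := by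
    exact_mod_cast MP_9999b5_sp.EXG_count C x k
  have h5 : (RFC_N C x k : ℝ) ≤ ((MP_9999b5_sp.EXG_N C x k).card : ℝ) := by
    exact_mod_cast RFC_NE C x k
  have hk0 : (0 : ℝ) ≤ (k : ℝ) := Nat.cast_nonneg k
  have h6 : (k : ℝ) * (2 * (RFC_N C x k : ℝ)) ≤
      k * (((MP_9999b5_mr.prs C k).card : ℝ) - (MP_9999b5_sp.pp C x k : ℝ) -
        (MP_9999b5_mr.hvy C x k : ℝ)) := by
    apply mul_le_mul_of_nonneg_left _ hk0
    linarith
  have h7 : ((MP_9999b5_mr.prs C k).card : ℝ) + (MP_9999b5_mr.bad C x k : ℝ) -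
      (MP_9999b5_sp.pp C x k : ℝ) = 2 * (MP_9999b5_sp.EX2_L C x k : ℝ) := by linarith
  rw [h7]
  have h8 : (RFC_G C x k : ℝ) =
      (MP_9999b5_sp.EX2_L C x k : ℝ) - (MP_9999b5_mr.bad C x k : ℝ) := by linarith
  rw [h8] at h1
  nlinarith

end Pool.Agent.Work.MP_9999b5_mz
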