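import Pool.Agent.Work.MP_9999b5_mz.Interface
import Pool.Agent.Work.MP_9999b5_full.Scalar79

set_option autoImplicit false

namespace Pool.Agent.Work.MP_9999b5_mz

open Finset

theorem p_SCA : Stmt_SCA := by
  intro k T φ hk hT hTk hφ hF hF3 w q r hq hqw hw hr hrw hSP hRF
  have hk1 : (1 : ℝ) ≤ k := by exact_mod_cast hk
  have hT1 : (1 : ℝ) ≤ T := by exact_mod_cast hT
  have hTk' : (T : ℝ) ≤ k := by exact_mod_cast hTk
  have hm : (0 : ℝ) < 2 * k + T := by linarith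
  have hkT : (0 : ℝ) < (k : ℝ) + T := by linarith
  have hk0 : (0 : ℝ) < k := by linarith
  set s : ℝ := (T : ℝ) / (2 * k + T) with hs
  have hs0 : 0 < s := by rw [hs]; positivity
  have hsm : s * (2 * k + T) = T := by rw [hs]; field_simp
  have hu : ((T : ℝ) / (k + T)) * (1 + s) = 2 * s := by
    rw [hs]; field_simp; ring
  have hA : (1 - s ^ 2) * ((T : ℝ) / (4 * (k + T))) = s * (1 - s) / 2 := by
    rw [hs]; field_simp; ring
  have hB : (1 - s ^ 2) * ((T : ℝ) / (4 * k)) = s * (1 + s) / 2 := by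
    rw [hs]; field_simp; ring
  have hs1 : s ≤ 1 / 3 := by
    rw [hs, div_le_iff₀ hm]; linarith
  have h1s : 0 ≤ 1 - s ^ 2 := by nlinarith
  have SP : (1 - s ^ 2) * (q ^ 2 * (1 - w) + r ^ 2 * w) ≤
      w * (1 - w) * ((q - r) ^ 2 + s - s * (1 + s) * (q + r)) := by
    have h := mul_le_mul_of_nonneg_left hSP h1s
    have e : (1 - s ^ 2) * (w * (1 - w) * ((q - r) ^ 2 +
      (T : ℝ) / (4 * (k + T)) * (1 - (q - r) ^ 2) + (T : ℝ) / (4 * k) * ((1 - q + r) ^ 2 - 4 * r))) =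
      w * (1 - w) * ((1 - s ^ 2) * (q - r) ^ 2 +
      ((1 - s ^ 2) * ((T : ℝ) / (4 * (k + T)))) * (1 - (q - r) ^ 2) +
      ((1 - s ^ 2) * ((T : ℝ) / (4 * k))) * ((1 - q + r) ^ 2 - 4 * r)) := by ring
    rw [e, hA, hB] at h
    nlinarith [h]
  have RF : φ * (1 + q - r) ≤ (1 - w - r) + ((T : ℝ) / (k + T)) * (w - q) := by
    have e : ((k : ℝ) + T) * ((1 - w - r) + ((T : ℝ) / (k + T)) * (w - q)) =
      (k + T) * (1 - w - r) + T * (w - q) := by field_simp
    have h : ((k : ℝ) + T) * (φ * (1 + q - r)) ≤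
        ((k : ℝ) + T) * ((1 - w - r) + ((T : ℝ) / (k + T)) * (w - q)) := by
      rw [e]; nlinarith [hRF]
    exact le_of_mul_le_mul_left h hkT
  have htau : tau k T = s := rfl
  have hth : theta k T = 3 / 2 - s / 4 := rfl
  rw [htau, hth]
  by_cases h3 : 3 * T ≤ k
  · have h3' : 3 * (T : ℝ) ≤ k := by exact_mod_cast h3
    have h7 : s ≤ 1 / 7 := by rw [hs, div_le_iff₀ hm]; linarith
    have hQ : Qm k T = 1 / 2 := by unfold Qm; rw [if_pos h3]
    have hL : Lm k T = 3 / 2 := by unfold Lm; rw [if_pos h3]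
    rw [hQ, hL]
    exact MP_9999b5_full.sca_small hs0 h7 hu hq hqw hr hrw (hF3 h3) hφ SP RF
  · have hQ : Qm k T = 11 / 20 := by unfold Qm; rw [if_neg h3]
    have hL : Lm k T = 8 / 5 := by unfold Lm; rw [if_neg h3]
    rw [hQ, hL]
    refine MP_9999b5_full.sca_big hs0 hu hq hqw hr hrw hφ ?_ SP RF
    rcases hF with hF | hF | hF | hF | hF
    · exact absurd hF.1 h3
    · left
      have : 7 * (T : ℝ) ≤ 3 * k := by exact_mod_cast hF.2.1
      exact ⟨by rw [hs, div_le_iff₀ hm]; linarith, hF.2.2⟩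
    · right; left
      have : 2 * (T : ℝ) ≤ k := by exact_mod_cast hF.2.1
      exact ⟨by rw [hs, div_le_iff₀ hm]; linarith, hF.2.2⟩
    · right; right; left
      have : 4 * (T : ℝ) ≤ 3 * k := by exact_mod_cast hF.2.1
      exact ⟨by rw [hs, div_le_iff₀ hm]; linarith, hF.2.2⟩
    · right; right; right
      exact ⟨hs1, hF.2.2⟩

end Pool.Agent.Work.MP_9999b5_mz
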