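import Pool.Agent.Work.MP_9999b5_mz.Interface
import Pool.Agent.Work.MP_9999b5_sp.B_SHF

/-!
SHP (MP_9999b5_co): shift of one element, positive total.
-/

set_option autoImplicit false

namespace Pool.Agent.Work.MP_9999b5_mz

open Finset

theorem p_SHP : Stmt_SHP := by
  intro k T φ hk hT hWP ι _ A x c hA hc
  obtain ⟨u, hu⟩ : ∃ u, u = ∑ i ∈ A, x i := ⟨_, rfl⟩
  have hT1 : (1 : ℝ) ≤ (T : ℝ) := by exact_mod_cast hT
  have hk1 : (1 : ℝ) ≤ (k : ℝ) := by exact_mod_cast hk
  obtain ⟨δ, hδ⟩ : ∃ δ : ℝ, δ = c / (2 * T) := ⟨_, rfl⟩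
  have hδ0 : 0 < δ := by rw [hδ]; positivity
  have hδT : T * δ = c / 2 := by rw [hδ]; field_simp
  have hδk : δ ≤ k * δ := le_mul_of_one_le_left hδ0.le hk1
  rw [← hu]
  set F1 := (A.powersetCard T).filter (fun K => ∑ i ∈ K, x i < c) with hF1
  set F2 := (A.powersetCard T).filter (fun K => ∑ i ∈ K, x i < u) with hF2
  have key : ∀ z ∈ A, φ * ((k + T).choose T : ℝ) ≤
      (((F1.filter (fun K => z ∉ K)).card + (F2.filter (fun K => z ∈ K)).card : ℕ) : ℝ) := by
    intro z hz
    have hyK : ∀ K : Finset ι, ∑ i ∈ K, (δ - x i + (if i = z then u - (k + T) * δ else 0)) =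
        K.card * δ - (∑ i ∈ K, x i) + (if z ∈ K then u - (k + T) * δ else 0) := by
      intro K
      rw [Finset.sum_add_distrib, Finset.sum_sub_distrib, Finset.sum_const, nsmul_eq_mul,
        Finset.sum_ite_eq']
    have h1 := hWP ι A (fun i => δ - x i + (if i = z then u - (k + T) * δ else 0)) hA (by
      rw [hyK A, if_pos hz, hA, ← hu]
      push_cast
      linarith)
    refine h1.trans ?_
    apply Nat.cast_le.2
    refine (Finset.card_le_card ?_).trans (Finset.card_union_le _ _)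
    intro K hK
    obtain ⟨hK1, hK2⟩ := Finset.mem_filter.1 hK
    obtain ⟨-, hK3⟩ := Finset.mem_powersetCard.1 hK1
    rw [hyK K, hK3] at hK2
    rw [Finset.mem_union]
    by_cases hzK : z ∈ K
    · right
      rw [if_pos hzK] at hK2
      have h2 : ∑ i ∈ K, x i < u := by linarith
      exact Finset.mem_filter.2 ⟨Finset.mem_filter.2 ⟨hK1, h2⟩, hzK⟩
    · left
      rw [if_neg hzK] at hK2
      have h2 : ∑ i ∈ K, x i < c := by linarith
      exact Finset.mem_filter.2 ⟨Finset.mem_filter.2 ⟨hK1, h2⟩, hzK⟩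
  have hs := Finset.sum_le_sum key
  rw [Finset.sum_const, nsmul_eq_mul, hA, ← Nat.cast_sum, Finset.sum_add_distrib] at hs
  have c1 : ∑ z ∈ A, (F1.filter (fun K => z ∉ K)).card = k * F1.card := by
    apply MP_9999b5_sp.SHF_count A F1 (fun z K => z ∉ K) k
    intro K hK
    obtain ⟨hK1, hK2⟩ := Finset.mem_powersetCard.1 (Finset.mem_filter.1 hK).1
    have : A.filter (fun z => z ∉ K) = A \ K := by
      ext i
      rw [Finset.mem_filter, Finset.mem_sdiff]
    rw [this, Finset.card_sdiff_of_subset hK1, hA, hK2]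
    omega
  have c2 : ∑ z ∈ A, (F2.filter (fun K => z ∈ K)).card = T * F2.card := by
    apply MP_9999b5_sp.SHF_count A F2 (fun z K => z ∈ K) T
    intro K hK
    obtain ⟨hK1, hK2⟩ := Finset.mem_powersetCard.1 (Finset.mem_filter.1 hK).1
    have : A.filter (fun z => z ∈ K) = K := by
      ext i
      rw [Finset.mem_filter]
      exact ⟨fun h => h.2, fun h => ⟨hK1 h, h⟩⟩
    rw [this, hK2]
  rw [c1, c2] at hs
  push_cast at hs
  linarith

end Pool.Agent.Work.MP_9999b5_mz
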