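import Pool.Agent.Work.MP_9999b5_mz.Interface

/-!
MP_9999b5_co, block STP: the induction step.
-/

set_option autoImplicit false

namespace Pool.Agent.Work.MP_9999b5_mz

open Finset

theorem STP_up (hAVG : Stmt_AVG) (k n : ℕ) (hk : 1 ≤ k) (hn : k ≤ n)
    (h : MP_9999b5_sp.WP k n ((k : ℝ) / n)) : MP_9999b5_sp.WP k (n + k) ((k : ℝ) / ((n + k : ℕ) : ℝ)) := by
  have hn0 : (0 : ℝ) < n := by
    have : 0 < n := by omega
    exact_mod_cast this
  have hk0 : (0 : ℝ) < k := by
    have : 0 < k := by omega
    exact_mod_cast this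
  have h1 := hAVG k n ((k : ℝ) / n) hn (by positivity) h
  have e : (k : ℝ) / n / (1 + (k : ℝ) / n) = (k : ℝ) / ((n + k : ℕ) : ℝ) := by
    push_cast
    field_simp
  rw [e] at h1
  exact h1

theorem p_STP : Stmt_SCA → Stmt_LOC → Stmt_CLO → Stmt_AVG → Stmt_DVN → Stmt_CHN → Stmt_FKT → Stmt_STP := by
  intro hSCA hLOC hCLO hAVG hDVN hCHN hFKT k hk hIH
  have step : ∀ T : ℕ, 1 ≤ T → T < k → MP_9999b5_sp.WP k (2 * k + T) ((1 - Qm k T) / 2) ∧
      MP_9999b5_sp.WP k (4 * k + T) ((k : ℝ) / (4 * k + T)) := by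
    intro T hT hTk
    obtain ⟨φ, hφ1, hF, h3, hW⟩ := hFKT k T hT hTk (hIH T hT hTk)
    have hS := hSCA k T φ hk hT hTk.le hφ1 hF h3
    have hL := hLOC k T φ (Qm k T) (Lm k T) hk hT hW hS
    exact ⟨hCLO k T (Qm k T) hk (fun ι _ C x hC hx => (hL ι C x hC hx).1),
      hCHN k T (Lm k T) hk (fun ι _ C x hC hx => (hL ι C x hC hx).2)⟩
  refine ⟨?_, ?_⟩
  · intro T hT hTk
    have h1 := (step T hT hTk).1
    by_cases h : 3 * T ≤ k
    · have e : (1 - Qm k T) / 2 = (if 3 * T ≤ k then (1 / 4 : ℝ) else 9 / 40) := by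
        rw [Qm, if_pos h, if_pos h]
        norm_num
      rw [e] at h1
      exact h1
    · have e : (1 - Qm k T) / 2 = (if 3 * T ≤ k then (1 / 4 : ℝ) else 9 / 40) := by
        rw [Qm, if_neg h, if_neg h]
        norm_num
      rw [e] at h1
      exact h1
  · have main : ∀ j T : ℕ, T < k →
        MP_9999b5_sp.WP k (4 * k + T + j * k) ((k : ℝ) / ((4 * k + T + j * k : ℕ) : ℝ)) := by
      intro j
      induction j with
      | zero =>
        intro T hT
        rcases Nat.eq_zero_or_pos T with rfl | hT0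
        · have h1 := (hDVN k).2.2
          have hk0 : (0 : ℝ) < k := by
            have : 0 < k := by omega
            exact_mod_cast this
          have e : (k : ℝ) / ((4 * k + 0 + 0 * k : ℕ) : ℝ) = 1 / 4 := by
            push_cast
            field_simp
            ring
          rw [e]
          have e2 : 4 * k + 0 + 0 * k = 4 * k := by ring
          rw [e2]
          exact h1
        · have h1 := (step T hT0 hT).2
          have e : (k : ℝ) / ((4 * k + T + 0 * k : ℕ) : ℝ) = (k : ℝ) / (4 * k + T) := by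
            push_cast
            ring_nf
          rw [e]
          have e2 : 4 * k + T + 0 * k = 4 * k + T := by ring
          rw [e2]
          exact h1
      | succ j ih =>
        intro T hT
        have h1 := STP_up hAVG k (4 * k + T + j * k) hk (by nlinarith) (ih T hT)
        have e2 : 4 * k + T + (j + 1) * k = 4 * k + T + j * k + k := by ring
        rw [e2]
        exact h1
    intro n hn
    have h1 := main ((n - 4 * k) / k) ((n - 4 * k) % k) (Nat.mod_lt _ hk)
    have e : 4 * k + (n - 4 * k) % k + (n - 4 * k) / k * k = n := by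
      have := Nat.mod_add_div (n - 4 * k) k
      have h2 : (n - 4 * k) / k * k = k * ((n - 4 * k) / k) := Nat.mul_comm _ _
      omega
    rw [e] at h1
    exact h1

end Pool.Agent.Work.MP_9999b5_mz
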