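import Pool.Agent.Work.MP_9999b5_mr.B_PAI
import Pool.Agent.Work.MP_9999b5_mr.B_PAC
import Pool.Agent.Work.MP_9999b5_sp.B_ALP
import Pool.Agent.Work.MP_9999b5_sp.B_NR2
import Pool.Agent.Work.MP_9999b5_sp.RefAll
import Pool.Agent.Work.MP_9999b5_mz.B_SHP
import Pool.Agent.Work.MP_9999b5_mz.B_RFC
import Pool.Agent.Work.MP_9999b5_mz.B_SCA
import Pool.Agent.Work.MP_9999b5_mz.B_LOC
import Pool.Agent.Work.MP_9999b5_mz.B_PSW
import Pool.Agent.Work.MP_9999b5_mz.B_CLO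
import Pool.Agent.Work.MP_9999b5_mz.B_AVG
import Pool.Agent.Work.MP_9999b5_mz.B_DVN
import Pool.Agent.Work.MP_9999b5_mz.B_CHN
import Pool.Agent.Work.MP_9999b5_mz.B_FKT
import Pool.Agent.Work.MP_9999b5_mz.B_STP
import Pool.Agent.Work.MP_9999b5_mz.B_FIN

/-!
MP_9999b5_co: the Manickam-Miklos-Singhi conjecture for all `n ≥ 4k` (non-strict), assembly.
-/

set_option autoImplicit false

namespace Pool.Agent.Work.MP_9999b5_mz

theorem h_PAC : MP_9999b5_mr.Stmt_PAC := MP_9999b5_mr.p_PAC MP_9999b5_mr.p_PAI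

theorem h_NR2 : MP_9999b5_sp.Stmt_NR2 :=
  MP_9999b5_sp.p_NR2 h_PAC MP_9999b5_sp.p_ALP MP_9999b5_sp.h_REF4

theorem h_LOC : Stmt_LOC := p_LOC h_PAC h_NR2 (p_RFC p_SHP)

theorem h_CLO : Stmt_CLO := p_CLO p_PSW

theorem h_DVN : Stmt_DVN := p_DVN p_AVG

theorem h_CHN : Stmt_CHN := p_CHN p_PSW

theorem h_FKT : Stmt_FKT := p_FKT p_AVG h_DVN

theorem h_STP : Stmt_STP := p_STP p_SCA h_LOC h_CLO p_AVG h_DVN h_CHN h_FKT

/-- MMS for all `n ≥ 4k`; the strict form for `n ≥ 5k` -/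
theorem h_FIN : Stmt_FIN := p_FIN h_STP

end Pool.Agent.Work.MP_9999b5_mz
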