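import Pool.Agent.Work.MP_9999b5_mz.Interface

/-!
Block CLO of `MP_9999b5_mz`: closure.
-/

set_option autoImplicit false

namespace Pool.Agent.Work.MP_9999b5_mz

open Finset

/-- sums over the pairs of functions of the first set -/
theorem CLO_fst {ι : Type} [DecidableEq ι] (C : Finset ι) (k : ℕ) (f : Finset ι → ℕ) :
    ∑ p ∈ MP_9999b5_mr.prs C k, f p.1 =
      (∑ A ∈ C.powersetCard k, f A) * (C.card - k).choose k := by
  classical
  unfold MP_9999b5_mr.prs
  rw [sum_filter, sum_product, sum_mul]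
  refine sum_congr rfl fun A hA => ?_
  obtain ⟨hAC, hAk⟩ := mem_powersetCard.mp hA
  have h1 : ∑ B ∈ C.powersetCard k, (if Disjoint (A, B).1 (A, B).2 then f (A, B).1 else 0) =
      ∑ B ∈ (C \ A).powersetCard k, f A := by
    rw [← sum_filter]
    refine sum_congr ?_ fun B _ => rfl
    ext B
    rw [mem_filter, mem_powersetCard, mem_powersetCard]
    constructor
    · rintro ⟨⟨hB, hk⟩, hd⟩
      refine ⟨fun i hi => mem_sdiff.mpr ⟨hB hi, fun hiA => ?_⟩, hk⟩
      exact disjoint_left.mp hd hiA hi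
    · rintro ⟨hB, hk⟩
      refine ⟨⟨fun i hi => (mem_sdiff.mp (hB hi)).1, hk⟩, ?_⟩
      exact disjoint_left.mpr fun i hiA hiB => (mem_sdiff.mp (hB hiB)).2 hiA
  rw [h1, sum_const, card_powersetCard, card_sdiff_of_subset hAC, hAk, smul_eq_mul, mul_comm]

/-- symmetry of the pairs -/
theorem CLO_swap {ι : Type} [DecidableEq ι] (C : Finset ι) (k : ℕ) (f : Finset ι → ℕ) :
    ∑ p ∈ MP_9999b5_mr.prs C k, f p.2 = ∑ p ∈ MP_9999b5_mr.prs C k, f p.1 := by
  classical
  refine sum_nbij' Prod.swap Prod.swap ?_ ?_ ?_ ?_ ?_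
  · intro p hp
    unfold MP_9999b5_mr.prs at hp ⊢
    rw [mem_filter, mem_product] at hp ⊢
    exact ⟨⟨hp.1.2, hp.1.1⟩, hp.2.symm⟩
  · intro p hp
    unfold MP_9999b5_mr.prs at hp ⊢
    rw [mem_filter, mem_product] at hp ⊢
    exact ⟨⟨hp.1.2, hp.1.1⟩, hp.2.symm⟩
  · intro p _
    rfl
  · intro p _
    rfl
  · intro p _
    rfl

/-- `N ≤ bad + 2 pos C(m-k,k)` -/
theorem CLO_count {ι : Type} [DecidableEq ι] (C : Finset ι) (x : ι → ℝ) (k : ℕ) :
    (MP_9999b5_mr.prs C k).card ≤ MP_9999b5_mr.bad C x k +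
      2 * (Pool.Agent.Work.MaxSums.pos x C k * (C.card - k).choose k) := by
  classical
  have h1 : Pool.Agent.Work.MaxSums.pos x C k * (C.card - k).choose k =
      ∑ p ∈ MP_9999b5_mr.prs C k, (if 0 < ∑ i ∈ p.1, x i then 1 else 0) := by
    unfold Pool.Agent.Work.MaxSums.pos
    rw [card_filter, ← CLO_fst C k (fun A => if 0 < ∑ i ∈ A, x i then 1 else 0)]
  have h2 : ∑ p ∈ MP_9999b5_mr.prs C k, (if 0 < ∑ i ∈ p.2, x i then 1 else 0) =
      ∑ p ∈ MP_9999b5_mr.prs C k, (if 0 < ∑ i ∈ p.1, x i then 1 else 0) :=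
    CLO_swap C k (fun A => if 0 < ∑ i ∈ A, x i then 1 else 0)
  have h3 : (MP_9999b5_mr.prs C k).card ≤ MP_9999b5_mr.bad C x k +
      (∑ p ∈ MP_9999b5_mr.prs C k, (if 0 < ∑ i ∈ p.1, x i then 1 else 0) +
        ∑ p ∈ MP_9999b5_mr.prs C k, (if 0 < ∑ i ∈ p.2, x i then 1 else 0)) := by
    unfold MP_9999b5_mr.bad
    rw [card_filter, card_eq_sum_ones, ← sum_add_distrib, ← sum_add_distrib]
    refine sum_le_sum fun p _ => ?_
    by_cases ha : 0 < ∑ i ∈ p.1, x i
    · rw [if_pos ha]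
      omega
    · by_cases hb : 0 < ∑ i ∈ p.2, x i
      · rw [if_pos hb]
        omega
      · rw [if_pos ⟨not_lt.mp ha, not_lt.mp hb⟩]
        omega
  rw [h1]
  rw [h2] at h3
  omega

/-- Block CLO. -/
theorem p_CLO : Stmt_PSW → Stmt_CLO := by
  classical
  intro hPSW k T Q hk hQ
  refine hPSW k (2 * k + T) ((1 - Q) / 2) (by omega) ?_
  intro ι _ C x hC hx
  have h1 := hQ ι C x hC hx
  have h2 := CLO_count C x k
  have h3 : (MP_9999b5_mr.prs C k).card = (2 * k + T).choose k * (k + T).choose k := by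
    have h := CLO_fst C k (fun _ => 1)
    rw [← card_eq_sum_ones, ← card_eq_sum_ones, card_powersetCard, hC] at h
    rw [h]
    congr 2
    omega
  have h4 : C.card - k = k + T := by omega
  rw [h4] at h2
  have h5 : (0 : ℝ) < ((k + T).choose k : ℝ) := by
    exact_mod_cast Nat.choose_pos (by omega)
  have h6 : ((MP_9999b5_mr.prs C k).card : ℝ) ≤ (MP_9999b5_mr.bad C x k : ℝ) +
      2 * ((Pool.Agent.Work.MaxSums.pos x C k : ℝ) * ((k + T).choose k : ℝ)) := by
    exact_mod_cast h2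
  have h7 : ((MP_9999b5_mr.prs C k).card : ℝ) =
      ((2 * k + T).choose k : ℝ) * ((k + T).choose k : ℝ) := by
    exact_mod_cast h3
  rw [h7] at h1 h6
  have h8 : ((1 - Q) / 2 * ((2 * k + T).choose k : ℝ)) * ((k + T).choose k : ℝ) ≤
      (Pool.Agent.Work.MaxSums.pos x C k : ℝ) * ((k + T).choose k : ℝ) := by
    nlinarith
  exact le_of_mul_le_mul_right h8 h5

end Pool.Agent.Work.MP_9999b5_mz
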