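import Pool.Agent.Work.MP_9999b5_mz.Interface

/-!
Block EXL (helper4): the `L`-terms cancel.
-/

set_option autoImplicit false

namespace Pool.Agent.Work.MP_9999b5_mz

open Finset

/-- no halving of a set with positive sum has two sums `≤ 0` -/
theorem EXL_al0 {ι : Type} [DecidableEq ι] (x : ι → ℝ) (k : ℕ) (U : Finset ι)
    (h : 0 < ∑ i ∈ U, x i) : MP_9999b5_mr.al x k U = 0 := by
  unfold MP_9999b5_mr.al
  rw [card_eq_zero, filter_eq_empty_iff]
  rintro B hB ⟨h1, h2⟩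
  have := sum_sdiff (f := x) (mem_powersetCard.1 hB).1
  linarith

theorem EXL_add {ι : Type} [DecidableEq ι] (V : Finset ι) (k : ℕ) (F G : Finset ι → Finset ι → ℝ) :
    PW V k (fun U W => F U W + G U W) = PW V k F + PW V k G := by
  simp only [PW, sum_add_distrib]

theorem EXL_sub {ι : Type} [DecidableEq ι] (V : Finset ι) (k : ℕ) (F G : Finset ι → Finset ι → ℝ) :
    PW V k (fun U W => F U W - G U W) = PW V k F - PW V k G := by
  simp only [PW, sum_sub_distrib]

theorem EXL_mul {ι : Type} [DecidableEq ι] (V : Finset ι) (k : ℕ) (c : ℝ)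
    (F : Finset ι → Finset ι → ℝ) :
    PW V k (fun U W => c * F U W) = c * PW V k F := by
  simp only [PW, mul_sum]

theorem EXL_lin {α : Type} (s : Finset α) (a t l : ℝ) (f g h : α → ℝ) :
    a * (∑ i ∈ s, f i - t * ∑ i ∈ s, g i - l * (∑ i ∈ s, h i - ∑ i ∈ s, f i)) =
      ∑ i ∈ s, a * (f i - t * g i - l * (h i - f i)) := by
  simp only [mul_sub, mul_sum, sum_sub_distrib]

theorem EXL_lin2 {α : Type} (s : Finset α) (a t l : ℝ) (f g h : α → ℝ) :
    a * (t * (2 * ∑ i ∈ s, g i - ∑ i ∈ s, h i - ∑ i ∈ s, f i) - l * ∑ i ∈ s, f i) =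
      ∑ i ∈ s, a * (t * (2 * g i - h i - f i) - l * f i) := by
  simp only [mul_sub, mul_sum, sum_sub_distrib]

theorem p_EXL (hA : MP_9999b5_mr.Stmt_PAC) (hQ : Stmt_PWQ) : Stmt_EXL := by
  intro ι _ V x k T L _ _
  have hsym := (hQ ι V k).2
  set X : ℝ := ((2 * k).choose k : ℝ) with hX
  have hN : ∀ U : Finset ι, ((MP_9999b5_mr.prs (V \ U) k).card : ℝ) =
      ∑ _W ∈ (V \ U).powersetCard (2 * k), X := by
    intro U
    rw [(hA ι (V \ U) x k).1, sum_const, card_powersetCard, nsmul_eq_mul, Nat.cast_mul, mul_comm]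
  have hB : ∀ U : Finset ι, (MP_9999b5_mr.bad (V \ U) x k : ℝ) =
      ∑ W ∈ (V \ U).powersetCard (2 * k), (MP_9999b5_mr.al x k W : ℝ) := by
    intro U
    rw [(hA ι (V \ U) x k).2.1, Nat.cast_sum]
  have hH : ∀ U : Finset ι, (MP_9999b5_mr.hvy (V \ U) x k : ℝ) =
      ∑ W ∈ (V \ U).powersetCard (2 * k), (if ∑ i ∈ W, x i ≤ 0 then X else 0) := by
    intro U
    rw [(hA ι (V \ U) x k).2.2, ← sum_filter, sum_const, nsmul_eq_mul, Nat.cast_mul, mul_comm]
  -- the local terms as sums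
  have hq : ∀ W : Finset ι, (MP_9999b5_mr.al x k W : ℝ) * qd k T L (V \ W) x =
      ∑ U ∈ (V \ W).powersetCard (2 * k), (MP_9999b5_mr.al x k W : ℝ) *
        ((MP_9999b5_mr.al x k U : ℝ) - tau k T * X -
          L * ((if ∑ i ∈ U, x i ≤ 0 then X else 0) - (MP_9999b5_mr.al x k U : ℝ))) := by
    intro W
    unfold qd
    rw [hN, hB, hH, EXL_lin]
  have hh : ∀ W : Finset ι, (X - (MP_9999b5_mr.al x k W : ℝ)) * hm k T L (V \ W) x =
      ∑ U ∈ (V \ W).powersetCard (2 * k), (X - (MP_9999b5_mr.al x k W : ℝ)) *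
        (theta k T * (2 * X - (if ∑ i ∈ U, x i ≤ 0 then X else 0) -
          (MP_9999b5_mr.al x k U : ℝ)) - L * (MP_9999b5_mr.al x k U : ℝ)) := by
    intro W
    unfold hm
    rw [hN, hB, hH, EXL_lin2]
  have hL : (∑ W ∈ (V.powersetCard (2 * k)).filter (fun W => ∑ i ∈ W, x i ≤ 0),
      ((X - MP_9999b5_mr.al x k W) * hm k T L (V \ W) x -
        (MP_9999b5_mr.al x k W : ℝ) * qd k T L (V \ W) x)) =
      PW V k (fun U W => theta k T * zt x k W U +
        tau k T * ((MP_9999b5_mr.al x k U : ℝ) * X) -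
        (MP_9999b5_mr.al x k U : ℝ) * MP_9999b5_mr.al x k W +
        L * ((if ∑ i ∈ W, x i ≤ 0 then (MP_9999b5_mr.al x k U : ℝ) *
            (X - MP_9999b5_mr.al x k W) else 0) -
          (if ∑ i ∈ U, x i ≤ 0 then (MP_9999b5_mr.al x k W : ℝ) *
            (X - MP_9999b5_mr.al x k U) else 0))) := by
    rw [sum_filter]
    unfold PW
    refine sum_congr rfl (fun W _ => ?_)
    by_cases hW : ∑ i ∈ W, x i ≤ 0
    · rw [if_pos hW, hq, hh, ← sum_sub_distrib]
      refine sum_congr rfl (fun U _ => ?_)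
      simp only [zt, if_pos hW, ← hX]
      by_cases hU : ∑ i ∈ U, x i ≤ 0
      · rw [if_pos hU, if_neg (not_lt.2 hU), if_pos hU]
        ring
      · rw [if_neg hU, if_pos (not_le.1 hU), if_neg hU, EXL_al0 x k U (not_le.1 hU)]
        push_cast
        ring
    · rw [if_neg hW]
      symm
      refine sum_eq_zero (fun U _ => ?_)
      simp only [zt, if_neg hW, EXL_al0 x k W (not_le.1 hW)]
      by_cases hU : ∑ i ∈ U, x i ≤ 0
      · rw [if_pos hU]; push_cast; ring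
      · rw [if_neg hU]; push_cast; ring
  have e1 := hsym (fun U W => zt x k U W)
  have e2 := hsym (fun U W => if ∑ i ∈ W, x i ≤ 0 then (MP_9999b5_mr.al x k U : ℝ) *
            (X - MP_9999b5_mr.al x k W) else 0)
  rw [hL, EXL_add, EXL_sub, EXL_add, EXL_mul, EXL_mul, EXL_mul, EXL_sub]
  rw [← e1, ← e2]
  ring

end Pool.Agent.Work.MP_9999b5_mz
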