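import Pool.Agent.Work.MP_9999b5_mz.Interface

/-! Block MAS of MP_9999b5_mz. -/

namespace Pool.Agent.Work.MP_9999b5_mz

open Finset

theorem p_MAS : Stmt_EXL → Stmt_TY1 → Stmt_TY2 → Stmt_TY3 → Stmt_MAS := by
  intro EXL TY1 TY2 TY3 ι _ V x k T L hk hV
  obtain ⟨h3, h4, M, hM, h0, h1⟩ := TY3 ι V x k T hk hV
  obtain ⟨ta, tb⟩ := TY1 ι V x k
  have tc := TY2 ι V x k
  have hkR : (1 : ℝ) ≤ k := by exact_mod_cast hk
  have hTR : (0 : ℝ) ≤ T := Nat.cast_nonneg T
  have hmpos : (0 : ℝ) < 2 * k + T := by linarith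
  have hnpos : (0 : ℝ) < 4 * k + T := by linarith
  have ht0 : 0 ≤ tau k T := by unfold tau; positivity
  have ht1 : tau k T ≤ 1 := by
    unfold tau
    rw [div_le_one hmpos]
    linarith
  have hth : 0 ≤ theta k T := by unfold theta; linarith
  refine ⟨(4 - 2 * tau k T) * M, mul_pos (by linarith) hM, ?_⟩
  rw [EXL ι V x k T L hk hV, ta, tb]
  have key : (4 - 2 * tau k T) * ((k : ℝ) / (4 * k + T)) = 1 - tau k T := by
    unfold tau
    field_simp
    ring
  have e1 : theta k T * PW V k (fun U W => zt x k U W) ≤ theta k T * (4 * ee V x k 2 - 4 * ee V x k 3) :=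
    mul_le_mul_of_nonneg_left tc hth
  have e2 : theta k T * (4 * ee V x k 2 - 4 * ee V x k 3) +
      tau k T * (ee V x k 0 - 2 * ee V x k 1 + ee V x k 2) -
      (ee V x k 0 - 4 * ee V x k 1 + 6 * ee V x k 2 - 4 * ee V x k 3 + ee V x k 4) =
      (4 - 2 * tau k T) * ee V x k 1 - (1 - tau k T) * ee V x k 0 -
        (2 - tau k T) * ee V x k 3 - ee V x k 4 := by
    unfold theta
    ring
  have e3 : 0 ≤ (2 - tau k T) * ee V x k 3 := mul_nonneg (by linarith) h3
  have e4 : (4 - 2 * tau k T) * M * ((Pool.Agent.Work.MaxSums.pos x V k : ℝ) -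
      (k : ℝ) / (4 * k + T) * ((4 * k + T).choose k : ℝ)) =
      (4 - 2 * tau k T) * ee V x k 1 - (1 - tau k T) * ee V x k 0 := by
    rw [h0, h1, ← key]
    ring
  rw [e4]
  linarith

end Pool.Agent.Work.MP_9999b5_mz
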