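import Pool.Agent.Work.MP_9999b5_mz.Interface

/-! Block PWQ: pairs of `2k`-sets with halves are quadruples; symmetry of `PW`. -/

set_option autoImplicit false

namespace Pool.Agent.Work.MP_9999b5_mz

open Finset

theorem PWQ_pair {ι : Type} [DecidableEq ι] (C : Finset ι) (k : ℕ)
    (F : Finset ι → Finset ι → ℝ) :
    ∑ p ∈ MP_9999b5_mr.prs C k, F p.1 p.2 =
      ∑ U ∈ C.powersetCard (2 * k), ∑ B ∈ U.powersetCard k, F B (U \ B) := by
  rw [Finset.sum_sigma']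
  refine Finset.sum_bij' (i := fun p _ => (⟨p.1 ∪ p.2, p.1⟩ : (_ : Finset ι) × Finset ι))
    (j := fun q _ => (q.2, q.1 \ q.2)) ?_ ?_ ?_ ?_ ?_
  · rintro ⟨A, B⟩ h
    simp only [MP_9999b5_mr.prs, mem_filter, mem_product, mem_powersetCard] at h
    obtain ⟨⟨⟨hA, hAc⟩, hB, hBc⟩, hd⟩ := h
    simp only [mem_sigma, mem_powersetCard]
    exact ⟨⟨union_subset hA hB, by rw [card_union_of_disjoint hd, hAc, hBc]; ring⟩,
      subset_union_left, hAc⟩
  · rintro ⟨U, B⟩ h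
    simp only [mem_sigma, mem_powersetCard] at h
    obtain ⟨⟨hU, hUc⟩, hB, hBc⟩ := h
    simp only [MP_9999b5_mr.prs, mem_filter, mem_product, mem_powersetCard]
    refine ⟨⟨⟨hB.trans hU, hBc⟩, sdiff_subset.trans hU, ?_⟩, disjoint_sdiff⟩
    rw [card_sdiff_of_subset hB, hUc, hBc]
    omega
  · rintro ⟨A, B⟩ h
    simp only [MP_9999b5_mr.prs, mem_filter, mem_product, mem_powersetCard] at h
    obtain ⟨-, hd⟩ := h
    simp only [Prod.mk.injEq, true_and]
    rw [union_sdiff_cancel_left hd]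
  · rintro ⟨U, B⟩ h
    simp only [mem_sigma, mem_powersetCard] at h
    obtain ⟨-, hB, -⟩ := h
    simp only [Sigma.mk.injEq, heq_eq_eq, and_true]
    exact union_sdiff_of_subset hB
  · rintro ⟨A, B⟩ h
    simp only [MP_9999b5_mr.prs, mem_filter, mem_product, mem_powersetCard] at h
    obtain ⟨-, hd⟩ := h
    simp only
    rw [union_sdiff_cancel_left hd]

theorem p_PWQ : Stmt_PWQ := by
  intro ι _ V k
  refine ⟨fun F => ?_, fun F => ?_⟩
  · unfold Q4 PW
    rw [PWQ_pair V k (fun A B => ∑ r ∈ MP_9999b5_mr.prs (V \ (A ∪ B)) k, F A B r.1 r.2)]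
    refine Finset.sum_congr rfl fun U _ => ?_
    rw [Finset.sum_comm (s := (V \ U).powersetCard (2 * k))]
    refine Finset.sum_congr rfl fun A hA => ?_
    rw [mem_powersetCard] at hA
    rw [union_sdiff_of_subset hA.1]
    exact PWQ_pair (V \ U) k (fun C D => F A (U \ A) C D)
  · unfold PW
    refine Finset.sum_comm' fun U W => ?_
    simp only [mem_powersetCard, subset_sdiff]
    constructor
    · rintro ⟨⟨hU, hUc⟩, ⟨hW, hd⟩, hWc⟩
      exact ⟨⟨⟨hU, hd.symm⟩, hUc⟩, hW, hWc⟩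
    · rintro ⟨⟨⟨hU, hd⟩, hUc⟩, hW, hWc⟩
      exact ⟨⟨hU, hUc⟩, ⟨hW, hd.symm⟩, hWc⟩

end Pool.Agent.Work.MP_9999b5_mz
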