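import Pool.Agent.Work.MP_9999b5_mz.Interface
import Pool.Agent.Work.MP_9999b5_ch_h15.Chain

/-!
MP_9999b5_co, block QSY: symmetry of the sum over quadruples of disjoint `k`-subsets (the three exchanges are helper15's
`q4_fst`, `q4_mid`, `q4_snd`).
-/

set_option autoImplicit false

namespace Pool.Agent.Work.MP_9999b5_mz

open Finset

theorem QSY_eq {ι : Type} [DecidableEq ι] (V : Finset ι) (k : ℕ)
    (F : Finset ι → Finset ι → Finset ι → Finset ι → ℝ) :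
    Q4 V k F = ∑ z ∈ MP_9999b5_ch.q4 V k, F z.1.1 z.1.2 z.2.1 z.2.2 := by
  unfold Q4
  rw [Finset.sum_finset_product (MP_9999b5_ch.q4 V k) (MP_9999b5_mr.prs V k)
    (fun p => MP_9999b5_mr.prs (V \ (p.1 ∪ p.2)) k) (fun z => MP_9999b5_ch.mem_q4 V k z)]

theorem p_QSY : Stmt_QSY := by
  intro ι _ V k F
  refine ⟨?_, ?_, ?_⟩
  · rw [QSY_eq, QSY_eq]
    exact MP_9999b5_ch.q4_fst V k F
  · rw [QSY_eq, QSY_eq]
    exact MP_9999b5_ch.q4_mid V k F
  · rw [QSY_eq, QSY_eq]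
    exact MP_9999b5_ch.q4_snd V k F

end Pool.Agent.Work.MP_9999b5_mz
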