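import Pool.Agent.Work.MP_9999b5_mz.Interface

/-!
MP_9999b5_co (Manickam-Miklos-Singhi), block TY1: types 1.
-/

set_option autoImplicit false

namespace Pool.Agent.Work.MP_9999b5_mz

open Finset

/-- the number of the halvings with both sums `≤ 0` as a sum of products of signs -/
theorem TY1_al {ι : Type} [DecidableEq ι] (x : ι → ℝ) (k : ℕ) (U : Finset ι) :
    (MP_9999b5_mr.al x k U : ℝ) = ∑ A ∈ U.powersetCard k, (1 - sg x A) * (1 - sg x (U \ A)) := by
  unfold MP_9999b5_mr.al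
  rw [card_filter]
  push_cast
  refine sum_congr rfl fun A _ => ?_
  unfold sg
  by_cases h1 : 0 < ∑ i ∈ A, x i
  · have h1' : ¬ (∑ i ∈ A, x i ≤ 0) := not_le.mpr h1
    simp [h1, h1']
  · have h1' : ∑ i ∈ A, x i ≤ 0 := not_lt.mp h1
    by_cases h2 : 0 < ∑ i ∈ U \ A, x i
    · have h2' : ¬ (∑ i ∈ U \ A, x i ≤ 0) := not_le.mpr h2
      simp [h2, h2']
    · have h2' : ∑ i ∈ U \ A, x i ≤ 0 := not_lt.mp h2
      simp [h1, h1', h2, h2']

theorem TY1_e0 {ι : Type} [DecidableEq ι] (V : Finset ι) (x : ι → ℝ) (k : ℕ) :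
    ee V x k 0 = Q4 V k (fun _ _ _ _ => 1) := rfl

theorem TY1_e1 {ι : Type} [DecidableEq ι] (V : Finset ι) (x : ι → ℝ) (k : ℕ) :
    ee V x k 1 = Q4 V k (fun A _ _ _ => sg x A) := rfl

theorem TY1_e2 {ι : Type} [DecidableEq ι] (V : Finset ι) (x : ι → ℝ) (k : ℕ) :
    ee V x k 2 = Q4 V k (fun A B _ _ => sg x A * sg x B) := rfl

theorem TY1_e3 {ι : Type} [DecidableEq ι] (V : Finset ι) (x : ι → ℝ) (k : ℕ) :
    ee V x k 3 = Q4 V k (fun A B C _ => sg x A * sg x B * sg x C) := rfl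

theorem TY1_e4 {ι : Type} [DecidableEq ι] (V : Finset ι) (x : ι → ℝ) (k : ℕ) :
    ee V x k 4 = Q4 V k (fun A B C D => sg x A * sg x B * sg x C * sg x D) := rfl

theorem TY1_lin2 {ι : Type} [DecidableEq ι] (V : Finset ι) (k : ℕ) (s : Finset ι → ℝ) :
    Q4 V k (fun A B _ _ => (1 - s A) * (1 - s B)) =
      Q4 V k (fun _ _ _ _ => 1) - Q4 V k (fun A _ _ _ => s A) - Q4 V k (fun _ B _ _ => s B) +
        Q4 V k (fun A B _ _ => s A * s B) := by
  unfold Q4
  simp only [← sum_sub_distrib, ← sum_add_distrib]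
  refine sum_congr rfl fun p _ => ?_
  refine sum_congr rfl fun r _ => ?_
  ring

theorem TY1_lin4 {ι : Type} [DecidableEq ι] (V : Finset ι) (k : ℕ) (s : Finset ι → ℝ) :
    Q4 V k (fun A B C D => (1 - s A) * (1 - s B) * ((1 - s C) * (1 - s D))) =
      Q4 V k (fun _ _ _ _ => 1) -
        (Q4 V k (fun A _ _ _ => s A) + Q4 V k (fun _ B _ _ => s B) +
          Q4 V k (fun _ _ C _ => s C) + Q4 V k (fun _ _ _ D => s D)) +
        (Q4 V k (fun A B _ _ => s A * s B) + Q4 V k (fun A _ C _ => s A * s C) +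
          Q4 V k (fun A _ _ D => s A * s D) + Q4 V k (fun _ B C _ => s B * s C) +
          Q4 V k (fun _ B _ D => s B * s D) + Q4 V k (fun _ _ C D => s C * s D)) -
        (Q4 V k (fun A B C _ => s A * s B * s C) + Q4 V k (fun A B _ D => s A * s B * s D) +
          Q4 V k (fun A _ C D => s A * s C * s D) + Q4 V k (fun _ B C D => s B * s C * s D)) +
        Q4 V k (fun A B C D => s A * s B * s C * s D) := by
  unfold Q4
  simp only [← sum_sub_distrib, ← sum_add_distrib]
  refine sum_congr rfl fun p _ => ?_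
  refine sum_congr rfl fun r _ => ?_
  ring

theorem p_TY1 : Stmt_QSY → Stmt_PWQ → Stmt_TY1 := by
  intro hQ hP ι _ V x k
  obtain ⟨hPW, -⟩ := hP ι V k
  have h12 := fun F => (hQ ι V k F).1
  have h23 := fun F => (hQ ι V k F).2.1
  have h34 := fun F => (hQ ι V k F).2.2
  -- singles
  have s1 : Q4 V k (fun _ B _ _ => sg x B) = Q4 V k (fun A _ _ _ => sg x A) :=
    h12 (fun _ B _ _ => sg x B)
  have s2 : Q4 V k (fun _ _ C _ => sg x C) = Q4 V k (fun _ B _ _ => sg x B) :=
    h23 (fun _ _ C _ => sg x C)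
  have s3 : Q4 V k (fun _ _ _ D => sg x D) = Q4 V k (fun _ _ C _ => sg x C) :=
    h34 (fun _ _ _ D => sg x D)
  -- pairs
  have d1 : Q4 V k (fun A _ C _ => sg x A * sg x C) = Q4 V k (fun A B _ _ => sg x A * sg x B) :=
    h23 (fun A _ C _ => sg x A * sg x C)
  have d2 : Q4 V k (fun A _ _ D => sg x A * sg x D) = Q4 V k (fun A _ C _ => sg x A * sg x C) :=
    h34 (fun A _ _ D => sg x A * sg x D)
  have d3 : Q4 V k (fun _ B C _ => sg x B * sg x C) = Q4 V k (fun A _ C _ => sg x A * sg x C) :=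
    h12 (fun _ B C _ => sg x B * sg x C)
  have d4 : Q4 V k (fun _ B _ D => sg x B * sg x D) = Q4 V k (fun A _ _ D => sg x A * sg x D) :=
    h12 (fun _ B _ D => sg x B * sg x D)
  have d5 : Q4 V k (fun _ _ C D => sg x C * sg x D) = Q4 V k (fun _ B _ D => sg x B * sg x D) :=
    h23 (fun _ _ C D => sg x C * sg x D)
  -- triples
  have t1 : Q4 V k (fun A B _ D => sg x A * sg x B * sg x D) =
      Q4 V k (fun A B C _ => sg x A * sg x B * sg x C) :=
    h34 (fun A B _ D => sg x A * sg x B * sg x D)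
  have t2 : Q4 V k (fun A _ C D => sg x A * sg x C * sg x D) =
      Q4 V k (fun A B _ D => sg x A * sg x B * sg x D) :=
    h23 (fun A _ C D => sg x A * sg x C * sg x D)
  have t3 : Q4 V k (fun _ B C D => sg x B * sg x C * sg x D) =
      Q4 V k (fun A _ C D => sg x A * sg x C * sg x D) :=
    h12 (fun _ B C D => sg x B * sg x C * sg x D)
  constructor
  · have e1 : PW V k (fun U _ => (MP_9999b5_mr.al x k U : ℝ) * ((2 * k).choose k : ℝ)) =
        Q4 V k (fun A B _ _ => (1 - sg x A) * (1 - sg x B)) := by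
      rw [hPW]
      unfold PW
      refine sum_congr rfl fun U _ => ?_
      refine sum_congr rfl fun W hW => ?_
      beta_reduce
      rw [TY1_al, sum_mul]
      refine sum_congr rfl fun A _ => ?_
      rw [sum_const, card_powersetCard, (mem_powersetCard.mp hW).2, nsmul_eq_mul, mul_comm]
    rw [e1, TY1_lin2, TY1_e0, TY1_e1, TY1_e2, s1]
    ring
  · have e1 : PW V k (fun U W => (MP_9999b5_mr.al x k U : ℝ) * MP_9999b5_mr.al x k W) =
        Q4 V k (fun A B C D => (1 - sg x A) * (1 - sg x B) * ((1 - sg x C) * (1 - sg x D))) := by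
      rw [hPW]
      unfold PW
      refine sum_congr rfl fun U _ => ?_
      refine sum_congr rfl fun W _ => ?_
      beta_reduce
      rw [TY1_al, TY1_al, sum_mul]
      refine sum_congr rfl fun A _ => ?_
      rw [mul_sum]
    rw [e1, TY1_lin4, TY1_e0, TY1_e1, TY1_e2, TY1_e3, TY1_e4, t3, t2, t1, d5, d4, d2, d3, d1,
      s3, s2, s1]
    ring

end Pool.Agent.Work.MP_9999b5_mz
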