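import Pool.Agent.Work.MP_9999b5_mz.Interface

set_option autoImplicit false

namespace Pool.Agent.Work.MP_9999b5_mz

open Finset

/-- mixed halvings -/
noncomputable def TY2_ms {ι : Type} [DecidableEq ι] (x : ι → ℝ) (k : ℕ) (U : Finset ι) : ℝ :=
  ∑ A ∈ U.powersetCard k, (sg x A + sg x (U \ A) - 2 * (sg x A * sg x (U \ A)))

/-- halvings with two positive halves -/
noncomputable def TY2_pq {ι : Type} [DecidableEq ι] (x : ι → ℝ) (k : ℕ) (U : Finset ι) : ℝ :=
  ∑ A ∈ U.powersetCard k, sg x A * sg x (U \ A)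

/-- indicator of sum not positive -/
noncomputable def TY2_g {ι : Type} [DecidableEq ι] (x : ι → ℝ) (U : Finset ι) : ℝ :=
  if ∑ i ∈ U, x i ≤ 0 then 1 else 0

theorem TY2_g01 {ι : Type} [DecidableEq ι] (x : ι → ℝ) (U : Finset ι) :
    0 ≤ TY2_g x U ∧ TY2_g x U ≤ 1 := by
  unfold TY2_g
  split_ifs <;> norm_num

theorem TY2_sg {ι : Type} [DecidableEq ι] (x : ι → ℝ) (U : Finset ι) :
    sg x U = 0 ∨ sg x U = 1 := by
  unfold sg
  split_ifs
  · right; rfl
  · left; rfl

theorem TY2_ms0 {ι : Type} [DecidableEq ι] (x : ι → ℝ) (k : ℕ) (U : Finset ι) :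
    0 ≤ TY2_ms x k U := by
  unfold TY2_ms
  refine Finset.sum_nonneg (fun A _ => ?_)
  rcases TY2_sg x A with h | h <;> rcases TY2_sg x (U \ A) with h' | h' <;>
    rw [h, h'] <;> norm_num

theorem TY2_pqn {ι : Type} [DecidableEq ι] (x : ι → ℝ) (k : ℕ) (U : Finset ι) :
    0 ≤ TY2_pq x k U := by
  unfold TY2_pq
  refine Finset.sum_nonneg (fun A _ => ?_)
  rcases TY2_sg x A with h | h <;> rcases TY2_sg x (U \ A) with h' | h' <;>
    rw [h, h'] <;> norm_num

theorem TY2_al {ι : Type} [DecidableEq ι] (x : ι → ℝ) (k : ℕ) (U : Finset ι)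
    (hU : U.card = 2 * k) :
    ((2 * k).choose k : ℝ) - (MP_9999b5_mr.al x k U : ℝ) = TY2_ms x k U + TY2_pq x k U := by
  have h1 : ((2 * k).choose k : ℝ) = ∑ _A ∈ U.powersetCard k, (1 : ℝ) := by
    rw [Finset.sum_const, Finset.card_powersetCard, hU, nsmul_eq_mul, mul_one]
  unfold MP_9999b5_mr.al TY2_ms TY2_pq
  rw [h1, Finset.card_filter]
  push_cast
  rw [← Finset.sum_sub_distrib, ← Finset.sum_add_distrib]
  refine Finset.sum_congr rfl (fun A _ => ?_)
  unfold sg
  by_cases h : 0 < ∑ i ∈ A, x i <;> by_cases h' : 0 < ∑ i ∈ U \ A, x i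
  · rw [if_pos h, if_pos h', if_neg (fun hh => absurd h (not_lt.mpr hh.1))]
    norm_num
  · rw [if_pos h, if_neg h', if_neg (fun hh => absurd h (not_lt.mpr hh.1))]
    norm_num
  · rw [if_neg h, if_pos h', if_neg (fun hh => absurd h' (not_lt.mpr hh.2))]
    norm_num
  · rw [if_neg h, if_neg h', if_pos ⟨not_lt.mp h, not_lt.mp h'⟩]
    norm_num

theorem TY2_pq0 {ι : Type} [DecidableEq ι] (x : ι → ℝ) (k : ℕ) (U : Finset ι)
    (h : ∑ i ∈ U, x i ≤ 0) : TY2_pq x k U = 0 := by
  unfold TY2_pq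
  refine Finset.sum_eq_zero (fun A hA => ?_)
  have h1 := Finset.sum_sdiff (f := x) (Finset.mem_powersetCard.mp hA).1
  unfold sg
  by_cases h2 : 0 < ∑ i ∈ A, x i
  · have h3 : ¬ (0 < ∑ i ∈ U \ A, x i) := by linarith
    rw [if_neg h3, mul_zero]
  · rw [if_neg h2, zero_mul]

theorem TY2_al0 {ι : Type} [DecidableEq ι] (x : ι → ℝ) (k : ℕ) (U : Finset ι)
    (h : 0 < ∑ i ∈ U, x i) : (MP_9999b5_mr.al x k U : ℝ) = 0 := by
  unfold MP_9999b5_mr.al
  rw [Nat.cast_eq_zero, Finset.card_eq_zero, Finset.filter_eq_empty_iff]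
  intro A hA hh
  have h1 := Finset.sum_sdiff (f := x) (Finset.mem_powersetCard.mp hA).1
  linarith [hh.1, hh.2]

theorem TY2_zt {ι : Type} [DecidableEq ι] (x : ι → ℝ) (k : ℕ) (U W : Finset ι)
    (hU : U.card = 2 * k) (hW : W.card = 2 * k) :
    zt x k U W = 2 * (TY2_g x W * TY2_ms x k W * TY2_pq x k U) +
      2 * (TY2_g x W * (TY2_ms x k U * TY2_ms x k W)) -
      TY2_g x U * TY2_g x W * (TY2_ms x k U * TY2_ms x k W) := by
  unfold zt
  rw [TY2_al x k U hU, TY2_al x k W hW]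
  by_cases hw : ∑ i ∈ W, x i ≤ 0
  · have g1 : TY2_g x W = 1 := if_pos hw
    rw [if_pos hw, TY2_pq0 x k W hw, g1]
    by_cases hu : 0 < ∑ i ∈ U, x i
    · have g2 : TY2_g x U = 0 := if_neg (not_le.mpr hu)
      have h1 := TY2_al x k U hU
      rw [TY2_al0 x k U hu] at h1
      rw [if_pos hu, g2]
      have h2 : ((2 * k).choose k : ℝ) = TY2_ms x k U + TY2_pq x k U := by linarith
      rw [h2]
      ring
    · have g2 : TY2_g x U = 1 := if_pos (not_lt.mp hu)
      rw [if_neg hu, g2, TY2_pq0 x k U (not_lt.mp hu)]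
      ring
  · have g1 : TY2_g x W = 0 := if_neg hw
    rw [if_neg hw, g1]
    ring

theorem TY2_cong {ι : Type} [DecidableEq ι] (V : Finset ι) (k : ℕ)
    (F G : Finset ι → Finset ι → ℝ)
    (h : ∀ U W : Finset ι, U.card = 2 * k → W.card = 2 * k → F U W = G U W) :
    PW V k F = PW V k G := by
  unfold PW
  refine Finset.sum_congr rfl (fun U hU => Finset.sum_congr rfl (fun W hW => ?_))
  exact h U W (Finset.mem_powersetCard.mp hU).2 (Finset.mem_powersetCard.mp hW).2

theorem TY2_le {ι : Type} [DecidableEq ι] (V : Finset ι) (k : ℕ)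
    (F G : Finset ι → Finset ι → ℝ) (h : ∀ U W : Finset ι, F U W ≤ G U W) :
    PW V k F ≤ PW V k G := by
  unfold PW
  exact Finset.sum_le_sum (fun U _ => Finset.sum_le_sum (fun W _ => h U W))

theorem TY2_lin {ι : Type} [DecidableEq ι] (V : Finset ι) (k : ℕ) (a b c : ℝ)
    (F G H : Finset ι → Finset ι → ℝ) :
    PW V k (fun U W => a * F U W + b * G U W + c * H U W) =
      a * PW V k F + b * PW V k G + c * PW V k H := by
  unfold PW
  simp only [Finset.mul_sum, ← Finset.sum_add_distrib]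

theorem TY2_q1 {ι : Type} [DecidableEq ι] (V : Finset ι) (x : ι → ℝ) (k : ℕ) :
    Q4 V k (fun A B C D => (sg x A * sg x B) * (sg x C + sg x D - 2 * (sg x C * sg x D))) =
      Q4 V k (fun A B C _ => sg x A * sg x B * sg x C) +
      Q4 V k (fun A B _ D => sg x A * sg x B * sg x D) -
      2 * Q4 V k (fun A B C D => sg x A * sg x B * sg x C * sg x D) := by
  unfold Q4
  simp only [Finset.mul_sum, ← Finset.sum_add_distrib, ← Finset.sum_sub_distrib]
  refine Finset.sum_congr rfl (fun p _ => Finset.sum_congr rfl (fun r _ => ?_))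
  ring

theorem TY2_q2 {ι : Type} [DecidableEq ι] (V : Finset ι) (x : ι → ℝ) (k : ℕ) :
    Q4 V k (fun A B C D => (sg x A + sg x B - 2 * (sg x A * sg x B)) *
        (sg x C + sg x D - 2 * (sg x C * sg x D))) =
      Q4 V k (fun A _ C _ => sg x A * sg x C) + Q4 V k (fun A _ _ D => sg x A * sg x D) +
      Q4 V k (fun _ B C _ => sg x B * sg x C) + Q4 V k (fun _ B _ D => sg x B * sg x D) -
      2 * Q4 V k (fun A B C _ => sg x A * sg x B * sg x C) -
      2 * Q4 V k (fun A B _ D => sg x A * sg x B * sg x D) -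
      2 * Q4 V k (fun A _ C D => sg x A * sg x C * sg x D) -
      2 * Q4 V k (fun _ B C D => sg x B * sg x C * sg x D) +
      4 * Q4 V k (fun A B C D => sg x A * sg x B * sg x C * sg x D) := by
  unfold Q4
  simp only [Finset.mul_sum, ← Finset.sum_add_distrib, ← Finset.sum_sub_distrib]
  refine Finset.sum_congr rfl (fun p _ => Finset.sum_congr rfl (fun r _ => ?_))
  ring

theorem p_TY2 : Stmt_QSY → Stmt_PWQ → Stmt_TY2 := by
  intro hQSY hPWQ ι _ V x k
  obtain ⟨hP1, hP2⟩ := hPWQ ι V k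
  have hS := hQSY ι V k
  -- the symmetric sums
  have e2a : Q4 V k (fun A _ C _ => sg x A * sg x C) = ee V x k 2 :=
    ((hS (fun A B _ _ => sg x A * sg x B)).2.1).symm
  have e2b : Q4 V k (fun A _ _ D => sg x A * sg x D) = ee V x k 2 := by
    rw [← e2a]
    exact ((hS (fun A _ C _ => sg x A * sg x C)).2.2).symm
  have e2c : Q4 V k (fun _ B C _ => sg x B * sg x C) = ee V x k 2 := by
    rw [← e2a]
    exact ((hS (fun A _ C _ => sg x A * sg x C)).1).symm
  have e2d : Q4 V k (fun _ B _ D => sg x B * sg x D) = ee V x k 2 := by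
    rw [← e2b]
    exact ((hS (fun A _ _ D => sg x A * sg x D)).1).symm
  have e3a : Q4 V k (fun A B C _ => sg x A * sg x B * sg x C) = ee V x k 3 := rfl
  have e3b : Q4 V k (fun A B _ D => sg x A * sg x B * sg x D) = ee V x k 3 :=
    ((hS (fun A B C _ => sg x A * sg x B * sg x C)).2.2).symm
  have e3c : Q4 V k (fun A _ C D => sg x A * sg x C * sg x D) = ee V x k 3 := by
    rw [← e3b]
    exact ((hS (fun A B _ D => sg x A * sg x B * sg x D)).2.1).symm
  have e3d : Q4 V k (fun _ B C D => sg x B * sg x C * sg x D) = ee V x k 3 := by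
    rw [← e3c]
    exact ((hS (fun A _ C D => sg x A * sg x C * sg x D)).1).symm
  have e4a : Q4 V k (fun A B C D => sg x A * sg x B * sg x C * sg x D) = ee V x k 4 := rfl
  -- the two products
  have m1 : PW V k (fun U W => TY2_ms x k W * TY2_pq x k U) =
      2 * ee V x k 3 - 2 * ee V x k 4 := by
    have h1 := hP1 (fun A B C D => (sg x A * sg x B) *
      (sg x C + sg x D - 2 * (sg x C * sg x D)))
    rw [TY2_q1, e3a, e3b, e4a] at h1
    have h2 : PW V k (fun U W => TY2_ms x k W * TY2_pq x k U) =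
        PW V k (fun U W => ∑ A ∈ U.powersetCard k, ∑ C ∈ W.powersetCard k,
          (sg x A * sg x (U \ A)) * (sg x C + sg x (W \ C) - 2 * (sg x C * sg x (W \ C)))) := by
      refine TY2_cong V k _ _ (fun U W _ _ => ?_)
      unfold TY2_ms TY2_pq
      rw [mul_comm, Finset.sum_mul_sum]
    rw [h2, ← h1]
    ring
  have m2 : PW V k (fun U W => TY2_ms x k U * TY2_ms x k W) =
      4 * ee V x k 2 - 8 * ee V x k 3 + 4 * ee V x k 4 := by
    have h1 := hP1 (fun A B C D => (sg x A + sg x B - 2 * (sg x A * sg x B)) *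
      (sg x C + sg x D - 2 * (sg x C * sg x D)))
    rw [TY2_q2, e2a, e2b, e2c, e2d, e3a, e3b, e3c, e3d, e4a] at h1
    have h2 : PW V k (fun U W => TY2_ms x k U * TY2_ms x k W) =
        PW V k (fun U W => ∑ A ∈ U.powersetCard k, ∑ C ∈ W.powersetCard k,
          (sg x A + sg x (U \ A) - 2 * (sg x A * sg x (U \ A))) *
            (sg x C + sg x (W \ C) - 2 * (sg x C * sg x (W \ C)))) := by
      refine TY2_cong V k _ _ (fun U W _ _ => ?_)
      unfold TY2_ms
      rw [Finset.sum_mul_sum]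
    rw [h2, ← h1]
    ring
  -- the sum
  have z1 : PW V k (fun U W => zt x k U W) =
      PW V k (fun U W => 2 * (TY2_g x W * TY2_ms x k W * TY2_pq x k U) +
        2 * (TY2_g x W * (TY2_ms x k U * TY2_ms x k W)) +
        (-1) * (TY2_g x U * TY2_g x W * (TY2_ms x k U * TY2_ms x k W))) := by
    refine TY2_cong V k _ _ (fun U W hU hW => ?_)
    rw [TY2_zt x k U W hU hW]
    ring
  rw [z1, TY2_lin]
  have s1 : PW V k (fun U W => TY2_g x W * (TY2_ms x k U * TY2_ms x k W)) =
      PW V k (fun U W => TY2_g x U * (TY2_ms x k U * TY2_ms x k W)) := by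
    rw [hP2]
    refine TY2_cong V k _ _ (fun U W _ _ => ?_)
    ring
  have u1 : PW V k (fun U W => TY2_g x W * TY2_ms x k W * TY2_pq x k U) ≤
      PW V k (fun U W => TY2_ms x k W * TY2_pq x k U) := by
    refine TY2_le V k _ _ (fun U W => ?_)
    have h1 := TY2_g01 x W
    have h2 := mul_nonneg (TY2_ms0 x k W) (TY2_pqn x k U)
    have h3 := mul_le_mul_of_nonneg_right h1.2 h2
    linarith
  have u2 : 1 * PW V k (fun U W => TY2_g x W * (TY2_ms x k U * TY2_ms x k W)) +
      1 * PW V k (fun U W => TY2_g x U * (TY2_ms x k U * TY2_ms x k W)) +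
      (-1) * PW V k (fun U W => TY2_g x U * TY2_g x W * (TY2_ms x k U * TY2_ms x k W)) ≤
      PW V k (fun U W => TY2_ms x k U * TY2_ms x k W) := by
    rw [← TY2_lin]
    refine TY2_le V k _ _ (fun U W => ?_)
    have h1 := TY2_g01 x W
    have h1' := TY2_g01 x U
    have h2 := mul_nonneg (TY2_ms0 x k U) (TY2_ms0 x k W)
    have h3 : 0 ≤ (1 - TY2_g x W) * (1 - TY2_g x U) :=
      mul_nonneg (by linarith) (by linarith)
    have h4 := mul_nonneg h3 h2
    linarith
  rw [m1] at u1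
  rw [m2, ← s1] at u2
  linarith

end Pool.Agent.Work.MP_9999b5_mz
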