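import Pool.Agent.Work.MP_9999b5_mz.Interface

set_option autoImplicit false

namespace Pool.Agent.Work.MP_9999b5_mz

open Finset

theorem TY3_prs {ι : Type} [DecidableEq ι] (C : Finset ι) (k : ℕ) (f : Finset ι → ℝ) :
    ∑ p ∈ MP_9999b5_mr.prs C k, f p.1 =
      (∑ A ∈ C.powersetCard k, f A) * ((C.card - k).choose k : ℝ) := by
  unfold MP_9999b5_mr.prs
  rw [Finset.sum_filter, Finset.sum_product, Finset.sum_mul]
  refine Finset.sum_congr rfl (fun A hA => ?_)
  obtain ⟨hAC, hAk⟩ := Finset.mem_powersetCard.mp hA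
  dsimp only
  rw [← Finset.sum_filter, Finset.sum_const, nsmul_eq_mul]
  have e : (C.powersetCard k).filter (fun B => Disjoint A B) = (C \ A).powersetCard k := by
    ext B
    simp only [Finset.mem_filter, Finset.mem_powersetCard]
    constructor
    · rintro ⟨⟨h1, h2⟩, h3⟩
      exact ⟨Finset.subset_sdiff.mpr ⟨h1, h3.symm⟩, h2⟩
    · rintro ⟨h1, h2⟩
      exact ⟨⟨(Finset.subset_sdiff.mp h1).1, h2⟩, (Finset.subset_sdiff.mp h1).2.symm⟩
  rw [e, Finset.card_powersetCard, Finset.card_sdiff_of_subset hAC, hAk]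
  ring

theorem TY3_card {ι : Type} [DecidableEq ι] (C : Finset ι) (k : ℕ) :
    ((MP_9999b5_mr.prs C k).card : ℝ) =
      (C.card.choose k : ℝ) * ((C.card - k).choose k : ℝ) := by
  have h := TY3_prs C k (fun _ => (1 : ℝ))
  simpa using h

theorem TY3_sg {ι : Type} [DecidableEq ι] (x : ι → ℝ) (B : Finset ι) : 0 ≤ sg x B := by
  unfold sg
  split_ifs <;> norm_num

theorem p_TY3 : Stmt_TY3 := by
  intro ι _ V x k T hk hV
  refine ⟨?_, ?_, ?_⟩
  · show 0 ≤ Q4 V k (fun A B C _ => sg x A * sg x B * sg x C)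
    unfold Q4
    exact Finset.sum_nonneg (fun p _ => Finset.sum_nonneg (fun r _ =>
      mul_nonneg (mul_nonneg (TY3_sg _ _) (TY3_sg _ _)) (TY3_sg _ _)))
  · show 0 ≤ Q4 V k (fun A B C D => sg x A * sg x B * sg x C * sg x D)
    unfold Q4
    exact Finset.sum_nonneg (fun p _ => Finset.sum_nonneg (fun r _ =>
      mul_nonneg (mul_nonneg (mul_nonneg (TY3_sg _ _) (TY3_sg _ _)) (TY3_sg _ _)) (TY3_sg _ _)))
  · refine ⟨((3 * k + T).choose k : ℝ) *
      (((2 * k + T).choose k : ℝ) * ((k + T).choose k : ℝ)), ?_, ?_, ?_⟩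
    · have h1 : 0 < (3 * k + T).choose k := Nat.choose_pos (by omega)
      have h2 : 0 < (2 * k + T).choose k := Nat.choose_pos (by omega)
      have h3 : 0 < (k + T).choose k := Nat.choose_pos (by omega)
      positivity
    all_goals
      have key : ∀ f : Finset ι → ℝ, Q4 V k (fun A _ _ _ => f A) =
          (∑ A ∈ V.powersetCard k, f A) * (((3 * k + T).choose k : ℝ) *
            (((2 * k + T).choose k : ℝ) * ((k + T).choose k : ℝ))) := by
        intro f
        unfold Q4
        have e1 : ∀ p ∈ MP_9999b5_mr.prs V k,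
            ∑ r ∈ MP_9999b5_mr.prs (V \ (p.1 ∪ p.2)) k, f p.1 =
              f p.1 * (((2 * k + T).choose k : ℝ) * ((k + T).choose k : ℝ)) := by
          intro p hp
          unfold MP_9999b5_mr.prs at hp
          obtain ⟨hp1, hp2⟩ := Finset.mem_filter.mp hp
          obtain ⟨hp3, hp4⟩ := Finset.mem_product.mp hp1
          obtain ⟨a1, a2⟩ := Finset.mem_powersetCard.mp hp3
          obtain ⟨b1, b2⟩ := Finset.mem_powersetCard.mp hp4
          have hc : (V \ (p.1 ∪ p.2)).card = 2 * k + T := by
            rw [Finset.card_sdiff_of_subset (Finset.union_subset a1 b1),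
              Finset.card_union_of_disjoint hp2, a2, b2, hV]
            omega
          rw [Finset.sum_const, nsmul_eq_mul, TY3_card, hc]
          have : 2 * k + T - k = k + T := by omega
          rw [this]
          ring
        rw [Finset.sum_congr rfl e1,
          TY3_prs V k (fun A => f A * (((2 * k + T).choose k : ℝ) * ((k + T).choose k : ℝ))),
          ← Finset.sum_mul, hV]
        have : 4 * k + T - k = 3 * k + T := by omega
        rw [this]
        ring
    · show Q4 V k (fun _ _ _ _ => 1) = _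
      rw [key (fun _ => 1), Finset.sum_const, Finset.card_powersetCard, hV, nsmul_eq_mul, mul_one]
    · show Q4 V k (fun A _ _ _ => sg x A) = _
      rw [key (fun A => sg x A)]
      congr 1
      unfold sg Pool.Agent.Work.MaxSums.pos
      rw [Finset.sum_boole]

end Pool.Agent.Work.MP_9999b5_mz
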