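import Pool.Agent.Work.MP_9999b5_sp.Interface5

/-!
MP_9999b5_co: THE MANICKAM-MIKLOS-SINGHI CONJECTURE, all `n ≥ 4k` (text: store `mms_full_v1.md`). Non-strict theorem, typed with the STRICT SIGNS of
`MP_9999b5_mr` / `MP_9999b5_sp` (`bad`: both sums `≤ 0`, `hvy`: `x(B₁) + x(B₂) ≤ 0`, `pp`: both `> 0`) for sets with POSITIVE total, no injectivity;
the non-strict statement `WP` for `x` follows from `x + ε`. `m = 2k + T`, `τ = T/m`, `n = 4k + T`, `X = C(2k,k)`, `N = |prs C k| = X C(m,2k)` for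
`|C| = m`, `θ = 3/2 - τ/4`, `u = T/(k+T)`.

RULES: one file `Pool/Agent/Work/MP_9999b5_mz/B_<ID>.lean` per block, `import Pool.Agent.Work.MP_9999b5_mz.Interface`,
`namespace Pool.Agent.Work.MP_9999b5_mz`, `open Finset`, theorem `p_<ID> : Stmt_X → Stmt_Y → Stmt_<ID>` with exactly the statements of the column
`uses` as hypotheses, in this order; auxiliary lemmas with the name of the block in front. No straight double quotes. Table `mmz_blocks`.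
-/

set_option autoImplicit false

namespace Pool.Agent.Work.MP_9999b5_mz

open Finset

/-! ### A. The local inequalities for sets `C` with `2k + T` elements and positive total -/

/-- `τ` -/
noncomputable def tau (k T : ℕ) : ℝ := (T : ℝ) / (2 * k + T)

/-- `θ` -/
noncomputable def theta (k T : ℕ) : ℝ := 3 / 2 - tau k T / 4

/-- defect of (QL): `bad - τ N - L (hvy - bad)`; (QL) is `qd ≤ 0` -/
noncomputable def qd {ι : Type} [DecidableEq ι] (k T : ℕ) (L : ℝ) (C : Finset ι) (x : ι → ℝ) : ℝ :=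
  (MP_9999b5_mr.bad C x k : ℝ) - tau k T * ((MP_9999b5_mr.prs C k).card : ℝ) -
    L * ((MP_9999b5_mr.hvy C x k : ℝ) - (MP_9999b5_mr.bad C x k : ℝ))

/-- margin of (HL): `θ (2N - hvy - bad) - L bad`; (HL) is `0 ≤ hm` -/
noncomputable def hm {ι : Type} [DecidableEq ι] (k T : ℕ) (L : ℝ) (C : Finset ι) (x : ι → ℝ) : ℝ :=
  theta k T * (2 * ((MP_9999b5_mr.prs C k).card : ℝ) - (MP_9999b5_mr.hvy C x k : ℝ) -
    (MP_9999b5_mr.bad C x k : ℝ)) - L * (MP_9999b5_mr.bad C x k : ℝ)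

/-- SHP (80 lines), shift of one element. For `z ∈ A` put `y i = c/(2T) - x i` for `i ≠ z` and `y z = c/(2T) - x z + s`,
`s = x(A) - c(k+T)/(2T)`, so `y(A) = 0`. `WP` for `y`: a `T`-subset `K` with `y(K) ≥ 0` has `x(K) ≤ c/2 < c` if `z ∉ K`, and
`x(K) ≤ x(A) - c k/(2T)`; so (`k ≥ 1`) `x(K) < x(A)`, if `z ∈ K`. Sum over `z ∈ A`: each `K` is counted `k` times in the first and `T` times in the second
sum (`Finset.sum_comm`, `card (A \ K) = k`, `card K = T`). -/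
def Stmt_SHP : Prop := ∀ (k T : ℕ) (φ : ℝ), 1 ≤ k → 1 ≤ T → MP_9999b5_sp.WP T (k + T) φ →
  ∀ (ι : Type) [DecidableEq ι] (A : Finset ι) (x : ι → ℝ) (c : ℝ), A.card = k + T → 0 < c →
  φ * (k + T) * ((k + T).choose T : ℝ) ≤
    k * (((A.powersetCard T).filter (fun K => ∑ i ∈ K, x i < c)).card : ℝ) +
    T * (((A.powersetCard T).filter (fun K => ∑ i ∈ K, x i < ∑ i ∈ A, x i)).card : ℝ)

/-- RFC (150 lines; uses SHP), helper49's R-flow, positive total. `N = |prs|`, `K = C \ B₁ \ B₂`. For `x(B₂) ≤ 0` apply SHP to `A = C \ B₂`, `c = x(C) > 0`,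
`K = A \ B₁`: `x(K) < x(A)` iff `x(B₁) > 0`, `x(K) < c` iff `x(B₁) + x(B₂) > 0`. Sum over `B₂`: `φ (k+T) L ≤ k N' + T (L - bad)`, `L` = number of pairs with
`x(B₂) ≤ 0`, `N'` = number of pairs with `x(B₂) ≤ 0` and positive total. `2 N' + pp + hvy = N`, `2 L = N + bad - pp` (swap `B₁`, `B₂`). Times 2.
(Compare block EX2 of `MP_9999b5_sp/Interface5`, `B_EX2.lean`.) -/
def Stmt_RFC : Prop := ∀ (k T : ℕ) (φ : ℝ), 1 ≤ k → 1 ≤ T → MP_9999b5_sp.WP T (k + T) φ →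
  ∀ (ι : Type) [DecidableEq ι] (C : Finset ι) (x : ι → ℝ), C.card = 2 * k + T →
  0 < ∑ i ∈ C, x i →
  2 * T * (MP_9999b5_mr.bad C x k : ℝ) + k * (MP_9999b5_sp.pp C x k : ℝ) +
      k * (MP_9999b5_mr.hvy C x k : ℝ) ≤
    k * ((MP_9999b5_mr.prs C k).card : ℝ) + (T - φ * (k + T)) *
      (((MP_9999b5_mr.prs C k).card : ℝ) + (MP_9999b5_mr.bad C x k : ℝ) -
        (MP_9999b5_sp.pp C x k : ℝ))

/-- the scalar statement for constants `φ`, `Q`, `L`: `w = hvy/N`, `q = bad/N`, `r = pp/N` -/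
def Scal (k T : ℕ) (φ Q L : ℝ) : Prop := ∀ w q r : ℝ, 0 ≤ q → q ≤ w → w ≤ 1 → 0 ≤ r → r ≤ 1 - w →
  (1 - w) * q ^ 2 + w * r ^ 2 ≤ w * (1 - w) * ((q - r) ^ 2 +
      (T : ℝ) / (4 * (k + T)) * (1 - (q - r) ^ 2) + (T : ℝ) / (4 * k) * ((1 - q + r) ^ 2 - 4 * r)) →
  2 * T * q + k * r + k * w ≤ k + (T - φ * (k + T)) * (1 + q - r) →
  q ≤ Q ∧ q - tau k T ≤ L * (w - q) ∧ L * q ≤ theta k T * (2 - w - q)

/-- what is known about `φ`: a lower bound for the fraction of the `T`-subsets of `k + T` elements -/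
def Fok (k T : ℕ) (φ : ℝ) : Prop :=
  (3 * T ≤ k ∧ (T : ℝ) / (k + T) ≤ φ) ∨ (k ≤ 3 * T ∧ 7 * T ≤ 3 * k ∧ 9 / 49 ≤ φ) ∨
  (3 * k ≤ 7 * T ∧ 2 * T ≤ k ∧ 1 / 5 ≤ φ) ∨ (k ≤ 2 * T ∧ 4 * T ≤ 3 * k ∧ 9 / 40 ≤ φ) ∨
  (3 * k ≤ 4 * T ∧ T ≤ k ∧ 1 / 4 ≤ φ)

/-- the bound for `q` -/
noncomputable def Qm (k T : ℕ) : ℝ := if 3 * T ≤ k then 1 / 2 else 11 / 20

/-- the constant `L` -/
noncomputable def Lm (k T : ℕ) : ℝ := if 3 * T ≤ k then 3 / 2 else 8 / 5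

/-- SCA (60 lines): from `sca_small`, `sca_big` of `Pool/Agent/Work/MP_9999b5_full/Scalar79.lean` (helper79; cite them). `τ = T/(2k+T)`, `u = T/(k+T)`,
`(1-τ²) T/(4(k+T)) = τ(1-τ)/2`, `(1-τ²) T/(4k) = τ(1+τ)/2`; the second hypothesis divided by `k + T`:
`φ (1+q-r) ≤ (1-w-r) + u (w-q)`. `3T ≤ k` iff `τ ≤ 1/7`; `7T ≤ 3k` iff `τ ≤ 3/17`; `2T ≤ k` iff `τ ≤ 1/5`; `4T ≤ 3k` iff `τ ≤ 3/11`; `T ≤ k` iff `τ ≤ 1/3`. -/
def Stmt_SCA : Prop := ∀ (k T : ℕ) (φ : ℝ), 1 ≤ k → 1 ≤ T → T ≤ k → φ ≤ 1 → Fok k T φ →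
  (3 * T ≤ k → (T : ℝ) / (k + T) ≤ φ) → Scal k T φ (Qm k T) (Lm k T)

/-- LOC (50 lines; uses PAC NR2 RFC: `p_LOC : MP_9999b5_mr.Stmt_PAC → MP_9999b5_sp.Stmt_NR2 → Stmt_RFC → Stmt_LOC`), local step. NR2 gives `w`, `q`, `r`;
RFC divided by `N`, `N = X C(2k+T,2k) > 0` by PAC. -/
def Stmt_LOC : Prop := ∀ (k T : ℕ) (φ Q L : ℝ), 1 ≤ k → 1 ≤ T → MP_9999b5_sp.WP T (k + T) φ →
  Scal k T φ Q L → ∀ (ι : Type) [DecidableEq ι] (C : Finset ι) (x : ι → ℝ),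
  C.card = 2 * k + T → 0 < ∑ i ∈ C, x i →
  (MP_9999b5_mr.bad C x k : ℝ) ≤ Q * ((MP_9999b5_mr.prs C k).card : ℝ) ∧
    qd k T L C x ≤ 0 ∧ 0 ≤ hm k T L C x

/-! ### B. Perturbation, averaging -/

/-- PSW (50 lines), perturbation: apply the hypothesis to `x i + ε`, `ε > 0` so small that `x(B) < 0` implies `x(B) + k ε ≤ 0` for all `k`-subsets `B` of `A`
(finitely many; `A.powersetCard k` or its image under the sum has a maximum among the negative sums). If `n = 0` the sum of `x` over `A = ∅` is `0`: then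
`k = 0` gives one subset, `φ ≤ 1` is not known: therefore `1 ≤ n`. -/
def Stmt_PSW : Prop := ∀ (k n : ℕ) (φ : ℝ), 1 ≤ n →
  (∀ (ι : Type) [DecidableEq ι] (A : Finset ι) (x : ι → ℝ), A.card = n → 0 < ∑ i ∈ A, x i →
    φ * (n.choose k : ℝ) ≤ Pool.Agent.Work.MaxSums.pos x A k) → MP_9999b5_sp.WP k n φ

/-- CLO (60 lines; uses PSW), closure: `2 pos C(k+T,k) = N - bad + pp` (number of pairs with `x(B₁) > 0` plus number with `x(B₂) > 0`), `N = C(m,k) C(k+T,k)`. -/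
def Stmt_CLO : Prop := ∀ (k T : ℕ) (Q : ℝ), 1 ≤ k →
  (∀ (ι : Type) [DecidableEq ι] (C : Finset ι) (x : ι → ℝ), C.card = 2 * k + T → 0 < ∑ i ∈ C, x i →
    (MP_9999b5_mr.bad C x k : ℝ) ≤ Q * ((MP_9999b5_mr.prs C k).card : ℝ)) →
  MP_9999b5_sp.WP k (2 * k + T) ((1 - Q) / 2)

/-- AVG (80 lines), averaging. For a `k`-subset `B` of `A`, `|A| = n + k`, with `x(B) < 0` the rest has sum `> 0` and `≥ φ C(n,k)` nonnegative `k`-subsets. Pairs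
`(B, B')` disjoint, `x(B) < 0 ≤ x(B')`: `φ (C(n+k,k) - p) C(n,k) ≤ p C(n,k)`, `p` = number of the nonnegative `k`-subsets, so `φ C(n+k,k) ≤ (1+φ) p`. -/
def Stmt_AVG : Prop := ∀ (k n : ℕ) (φ : ℝ), k ≤ n → 0 ≤ φ → MP_9999b5_sp.WP k n φ →
  MP_9999b5_sp.WP k (n + k) (φ / (1 + φ))

/-- DVN (30 lines; uses AVG): `WP k k 1` (the only `k`-subset of `A` is `A`), then AVG three times. -/
def Stmt_DVN : Prop := ∀ k : ℕ, MP_9999b5_sp.WP k (2 * k) (1 / 2) ∧ MP_9999b5_sp.WP k (3 * k) (1 / 3) ∧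
  MP_9999b5_sp.WP k (4 * k) (1 / 4)

/-! ### C. The chain, for every real function on `V`, `|V| = 4k + T` -/

/-- sum over the ordered quadruples of disjoint `k`-subsets of `V` -/
noncomputable def Q4 {ι : Type} [DecidableEq ι] (V : Finset ι) (k : ℕ)
    (F : Finset ι → Finset ι → Finset ι → Finset ι → ℝ) : ℝ :=
  ∑ p ∈ MP_9999b5_mr.prs V k, ∑ r ∈ MP_9999b5_mr.prs (V \ (p.1 ∪ p.2)) k, F p.1 p.2 r.1 r.2

/-- sign: `1` if the sum is positive, else `0` -/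
noncomputable def sg {ι : Type} [DecidableEq ι] (x : ι → ℝ) (B : Finset ι) : ℝ :=
  if 0 < ∑ i ∈ B, x i then 1 else 0

/-- QSY (100 lines), symmetry of `Q4`: rewrite `Q4` as a sum over the filtered product of four copies of `V.powersetCard k` (pairwise disjoint), or use bijections
`Finset.sum_bij'` on the sigma type. -/
def Stmt_QSY : Prop := ∀ (ι : Type) [DecidableEq ι] (V : Finset ι) (k : ℕ)
    (F : Finset ι → Finset ι → Finset ι → Finset ι → ℝ),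
  Q4 V k F = Q4 V k (fun A B C D => F B A C D) ∧
  Q4 V k F = Q4 V k (fun A B C D => F A C B D) ∧
  Q4 V k F = Q4 V k (fun A B C D => F A B D C)

/-- `e₀ = |quadruples|`, `e₁ = ∑ s(A)`, `e₂ = ∑ s(A) s(B)`, `e₃`, `e₄` -/
noncomputable def ee {ι : Type} [DecidableEq ι] (V : Finset ι) (x : ι → ℝ) (k : ℕ) : ℕ → ℝ
  | 0 => Q4 V k (fun _ _ _ _ => 1)
  | 1 => Q4 V k (fun A _ _ _ => sg x A)
  | 2 => Q4 V k (fun A B _ _ => sg x A * sg x B)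
  | 3 => Q4 V k (fun A B C _ => sg x A * sg x B * sg x C)
  | _ => Q4 V k (fun A B C D => sg x A * sg x B * sg x C * sg x D)

/-- sum over the ordered pairs `(U, W)` of disjoint `2k`-subsets of `V` -/
noncomputable def PW {ι : Type} [DecidableEq ι] (V : Finset ι) (k : ℕ)
    (F : Finset ι → Finset ι → ℝ) : ℝ :=
  ∑ U ∈ V.powersetCard (2 * k), ∑ W ∈ (V \ U).powersetCard (2 * k), F U W

/-- PWQ (80 lines; uses PAI): a pair `(U, W)` with a half of `U` and a half of `W` is a quadruple. (PAI is stated for `ℕ`-valued functions: prove the real version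
by the same bijection `p ↦ (p.1 ∪ p.2, p.1)`, or copy `B_PAI.lean`.) Also `PW` is symmetric. -/
def Stmt_PWQ : Prop := ∀ (ι : Type) [DecidableEq ι] (V : Finset ι) (k : ℕ),
  (∀ F : Finset ι → Finset ι → Finset ι → Finset ι → ℝ, Q4 V k F =
    PW V k (fun U W => ∑ A ∈ U.powersetCard k, ∑ C ∈ W.powersetCard k, F A (U \ A) C (W \ C))) ∧
  (∀ F : Finset ι → Finset ι → ℝ, PW V k F = PW V k (fun U W => F W U))

/-- the weight of `(U, W)`, `x(W) ≤ 0`, in (HL): `X - al W` (the mixed halvings of `W`) times `X [x(U) > 0] + X - al U` -/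
noncomputable def zt {ι : Type} [DecidableEq ι] (x : ι → ℝ) (k : ℕ) (U W : Finset ι) : ℝ :=
  if ∑ i ∈ W, x i ≤ 0 then
    (((2 * k).choose k : ℝ) - MP_9999b5_mr.al x k W) *
      ((if 0 < ∑ i ∈ U, x i then ((2 * k).choose k : ℝ) else 0) +
        (((2 * k).choose k : ℝ) - MP_9999b5_mr.al x k U))
  else 0

/-- EXL (100 lines; uses PAC PWQ), the `L`-terms cancel. `|V \ U| = 2k + T`, `N = |prs (V \ U) k|`. By PAC for `C = V \ U`: `bad C = ∑_(W ⊆ C) al W`,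
`hvy C = X #{W ⊆ C : x(W) ≤ 0}`, `N = X C(m,2k) = ∑_(W ⊆ C) X`; `al W = 0` if `x(W) > 0`. So with `Y = PW (al U [x(W) ≤ 0] (X - al W))`:
`∑_U al U qd(V \ U) = PW (al U al W) - τ PW (al U X) - L Y`; `∑_(W : x(W) ≤ 0) (X - al W) hm(V \ W) = θ PW zt - L Y` (symmetry of `PW`; sum over
`U ⊆ V \ W` of `2X - X [x(U) ≤ 0] - al U`). -/
def Stmt_EXL : Prop := ∀ (ι : Type) [DecidableEq ι] (V : Finset ι) (x : ι → ℝ) (k T : ℕ) (L : ℝ),
  1 ≤ k → V.card = 4 * k + T →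
  (∑ W ∈ (V.powersetCard (2 * k)).filter (fun W => ∑ i ∈ W, x i ≤ 0),
      ((((2 * k).choose k : ℝ) - MP_9999b5_mr.al x k W) * hm k T L (V \ W) x -
        (MP_9999b5_mr.al x k W : ℝ) * qd k T L (V \ W) x)) =
    theta k T * PW V k (fun U W => zt x k U W) +
      tau k T * PW V k (fun U _ => (MP_9999b5_mr.al x k U : ℝ) * ((2 * k).choose k : ℝ)) -
      PW V k (fun U W => (MP_9999b5_mr.al x k U : ℝ) * MP_9999b5_mr.al x k W)

/-- TY1 (60 lines; uses QSY PWQ), types. `al U = ∑_(A ⊆ U) (1 - s(A)) (1 - s(U \ A))` (`|A| = k`), `X = ∑_(C ⊆ W) 1`. -/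
def Stmt_TY1 : Prop := ∀ (ι : Type) [DecidableEq ι] (V : Finset ι) (x : ι → ℝ) (k : ℕ),
  PW V k (fun U _ => (MP_9999b5_mr.al x k U : ℝ) * ((2 * k).choose k : ℝ)) =
    ee V x k 0 - 2 * ee V x k 1 + ee V x k 2 ∧
  PW V k (fun U W => (MP_9999b5_mr.al x k U : ℝ) * MP_9999b5_mr.al x k W) =
    ee V x k 0 - 4 * ee V x k 1 + 6 * ee V x k 2 - 4 * ee V x k 3 + ee V x k 4

/-- TY2 (120 lines; uses QSY PWQ), types. Let `mx U = ∑_(A ⊆ U) (s(A) (1 - s(U \ A)) + (1 - s(A)) s(U \ A))` (mixed halvings), `pq U = ∑_(A ⊆ U) s(A) s(U \ A)`.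
If `x(W) ≤ 0`: `X - al W = mx W` (no halving with two positive halves). If `x(U) > 0`: `al U = 0`, `X + X - al U = 2 pq U + 2 mx U`; if `x(U) ≤ 0`: `pq U = 0`
and the second factor is `mx U`. So `zt U W = [x(W) ≤ 0] mx W (2 pq U + (1 + [x(U) > 0]) mx U)`. Now `PW ([x(W) ≤ 0] mx W · 2 pq U) ≤ 2 PW (mx W pq U) =
2 (2 e₃ - 2 e₄)`, and with the symmetry of `PW`, `g = [x(W) ≤ 0]`, `g' = [x(U) ≤ 0]`: `PW (g (2 - g') mx U mx W) = PW ((2g - g g') mx mx) = PW ((g + g' - g g') mx mx)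
≤ PW (mx U mx W) = 4 e₂ - 8 e₃ + 4 e₄`. Sum: `4 e₂ - 4 e₃`. -/
def Stmt_TY2 : Prop := ∀ (ι : Type) [DecidableEq ι] (V : Finset ι) (x : ι → ℝ) (k : ℕ),
  PW V k (fun U W => zt x k U W) ≤ 4 * ee V x k 2 - 4 * ee V x k 3

/-- TY3 (60 lines), `e₃, e₄ ≥ 0` and `e₁`: every `k`-subset `A` is the first member of `|prs (V \ A)...|` quadruples, the same number `M` for all `A`
(`∑_(p ∈ prs V k) = ∑_A ∑_(B ⊆ V \ A)`, cards). -/
def Stmt_TY3 : Prop := ∀ (ι : Type) [DecidableEq ι] (V : Finset ι) (x : ι → ℝ) (k T : ℕ),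
  1 ≤ k → V.card = 4 * k + T →
  0 ≤ ee V x k 3 ∧ 0 ≤ ee V x k 4 ∧ ∃ M : ℝ, 0 < M ∧
    ee V x k 0 = ((4 * k + T).choose k : ℝ) * M ∧
    ee V x k 1 = (Pool.Agent.Work.MaxSums.pos x V k : ℝ) * M

/-- MAS (50 lines; uses EXL TY1 TY2 TY3), the master inequality of the chain. `θ ≥ 0`, `θ (4e₂ - 4e₃) + τ (e₀ - 2e₁ + e₂) - (e₀ - 4e₁ + 6e₂ - 4e₃ + e₄) =
(4-2τ) e₁ - (1-τ) e₀ - (2-τ) e₃ - e₄`, `(4-2τ) k/(4k+T) = 1 - τ`. -/
def Stmt_MAS : Prop := ∀ (ι : Type) [DecidableEq ι] (V : Finset ι) (x : ι → ℝ) (k T : ℕ) (L : ℝ),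
  1 ≤ k → V.card = 4 * k + T → ∃ M : ℝ, 0 < M ∧
  (∑ W ∈ (V.powersetCard (2 * k)).filter (fun W => ∑ i ∈ W, x i ≤ 0),
      ((((2 * k).choose k : ℝ) - MP_9999b5_mr.al x k W) * hm k T L (V \ W) x -
        (MP_9999b5_mr.al x k W : ℝ) * qd k T L (V \ W) x)) ≤
    M * ((Pool.Agent.Work.MaxSums.pos x V k : ℝ) -
      (k : ℝ) / (4 * k + T) * ((4 * k + T).choose k : ℝ))

/-- CHN (40 lines; uses MAS PSW): all the terms of the sum are `≥ 0` (`al W ≤ X`: `al W` is the card of a filter of `W.powersetCard k`, `|W| = 2k`;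
`x(V \ W) = x(V) - x(W) > 0`), so `pos ≥ k/(4k+T) C(4k+T,k)`; PSW. -/
def Stmt_CHN : Prop := ∀ (k T : ℕ) (L : ℝ), 1 ≤ k →
  (∀ (ι : Type) [DecidableEq ι] (C : Finset ι) (x : ι → ℝ), C.card = 2 * k + T → 0 < ∑ i ∈ C, x i →
    qd k T L C x ≤ 0 ∧ 0 ≤ hm k T L C x) →
  MP_9999b5_sp.WP k (4 * k + T) ((k : ℝ) / (4 * k + T))

/-! ### D. The induction -/

/-- the induction statement -/
def IH (k : ℕ) : Prop := (∀ T : ℕ, 1 ≤ T → T < k →
    MP_9999b5_sp.WP k (2 * k + T) (if 3 * T ≤ k then 1 / 4 else 9 / 40)) ∧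
  ∀ n : ℕ, 4 * k ≤ n → MP_9999b5_sp.WP k n ((k : ℝ) / n)

/-- FKT (100 lines; uses AVG DVN), the fraction for `T`-subsets of `k + T` elements from `IH T`. `3T ≤ k`: `k + T ≥ 4T`, second part of `IH T`.
`k < 3T`, `2T < k`: `k + T = 3T + v`, `v = k - 2T`, `1 ≤ v < T`: first part for `v` and AVG: `9/49` (`v > T/3` or not: `1/4 ≥ 9/40`, so `9/40` always),
and `1/5` if `3v ≤ T`, that is `3k ≤ 7T`. `k = 2T`: DVN `1/3`. `k < 2T`: `k + T = 2T + v`, `v = k - T`, `1 ≤ v < T`: `9/40`, and `1/4` if `3v ≤ T`, that is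
`3k ≤ 4T`. (`WP` is monotone in `φ`.) -/
def Stmt_FKT : Prop := ∀ k T : ℕ, 1 ≤ T → T < k → IH T →
  ∃ φ : ℝ, φ ≤ 1 ∧ Fok k T φ ∧ (3 * T ≤ k → (T : ℝ) / (k + T) ≤ φ) ∧ MP_9999b5_sp.WP T (k + T) φ

/-- STP (80 lines; uses SCA LOC CLO AVG DVN CHN FKT), the induction step. For `1 ≤ T < k`: FKT, SCA, LOC: CLO gives the first part (`(1-1/2)/2 = 1/4`,
`(1-11/20)/2 = 9/40`), CHN gives `WP k (4k+T) (k/(4k+T))`. `n = 4k + T + j k`, `T < k`: induction on `j`, AVG with `φ = k/n`: `φ/(1+φ) = k/(n+k)`; `T = 0`: DVN. -/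
def Stmt_STP : Prop := ∀ k : ℕ, 1 ≤ k → (∀ T : ℕ, 1 ≤ T → T < k → IH T) → IH k

/-- FIN (60 lines; uses STP). Strong induction: `IH k` for all `k ≥ 1`. `MMS k n`: `WP` with `ι = Fin n`, `A = univ`, `k/n C(n,k) = C(n-1,k-1)`
(`Nat.add_one_mul_choose_eq` or `Nat.succ_mul_choose_eq`). For `5k ≤ n`: `Transfer.greatest_of_MMS` of `MP_9999b5_ms_helper84/Transfer4.lean` with `n - k ≥ 4k`. -/
def Stmt_FIN : Prop := ∀ k n : ℕ, 0 < k → 4 * k ≤ n →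
  Pool.Agent.Work.MaxSums.MMS k n ∧
    (5 * k ≤ n → IsGreatest (Pool.Agent.Work.MaxSums.values k n) ((n - 1).choose k))

end Pool.Agent.Work.MP_9999b5_mz
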